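import Mathlib
import Pool.Agent.Helper702.OdeA

set_option autoImplicit false

namespace Pool.Agent.H761R3.Arn

open Set Real Filter Topology

/-- the primitive of a continuous function bounded below by a positive constant has a
differentiable inverse -/
theorem time_inv {a : ℝ → ℝ} (ha : Continuous a) {m : ℝ} (hm : 0 < m) (hpos : ∀ t, m ≤ a t) :
    ∃ θ : ℝ → ℝ, (∀ t, θ (∫ s in (0 : ℝ)..t, a s) = t) ∧ (∀ s, ∫ r in (0 : ℝ)..(θ s), a r = s) ∧
      StrictMono θ ∧ ∀ s, HasDerivAt θ (a (θ s))⁻¹ s := by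
  set τ : ℝ → ℝ := fun t => ∫ s in (0 : ℝ)..t, a s with hτ
  have hd : ∀ t, HasDerivAt τ (a t) t := fun t => (ha.integral_hasStrictDerivAt 0 t).hasDerivAt
  have hτc : Continuous τ := continuous_iff_continuousAt.2 fun t => (hd t).continuousAt
  have hmono : StrictMono τ := by
    apply strictMono_of_deriv_pos
    intro t
    rw [(hd t).deriv]
    exact lt_of_lt_of_le hm (hpos t)
  have hdiff : ∀ x y, x ≤ y → m * (y - x) ≤ τ y - τ x := by
    intro x y hxy
    have h1 : τ y - τ x = ∫ s in x..y, a s := by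
      simp only [hτ]
      rw [intervalIntegral.integral_interval_sub_left (ha.intervalIntegrable _ _) (ha.intervalIntegrable _ _)]
    rw [h1]
    have h2 := intervalIntegral.integral_mono_on (μ := MeasureTheory.volume) (a := x) (b := y) hxy
      (continuous_const.intervalIntegrable _ _ : IntervalIntegrable (fun _ : ℝ => m) MeasureTheory.volume x y)
      (ha.intervalIntegrable _ _) (fun s _ => hpos s)
    rw [intervalIntegral.integral_const, smul_eq_mul] at h2
    linarith
  have h0 : τ 0 = 0 := by simp [hτ]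
  have htop : Tendsto τ atTop atTop := by
    have h1 : Tendsto (fun t : ℝ => m * t) atTop atTop := Tendsto.const_mul_atTop hm tendsto_id
    refine tendsto_atTop_mono' atTop ?_ h1
    filter_upwards [eventually_ge_atTop (0 : ℝ)] with t ht
    have := hdiff 0 t ht
    rw [h0] at this
    linarith
  have hbot : Tendsto τ atBot atBot := by
    have h1 : Tendsto (fun t : ℝ => m * t) atBot atBot := Tendsto.const_mul_atBot hm tendsto_id
    refine tendsto_atBot_mono' atBot ?_ h1
    filter_upwards [eventually_le_atBot (0 : ℝ)] with t ht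
    have := hdiff t 0 ht
    rw [h0] at this
    linarith
  have hsurj : Function.Surjective τ := hτc.surjective htop hbot
  set φ := StrictMono.orderIsoOfSurjective τ hmono hsurj with hφ
  have hφτ : ∀ t, φ t = τ t := fun t => rfl
  refine ⟨φ.symm, fun t => ?_, fun s => ?_, φ.symm.strictMono, fun s => ?_⟩
  · exact φ.symm_apply_apply t
  · exact φ.apply_symm_apply s
  · have hne : a (φ.symm s) ≠ 0 := (lt_of_lt_of_le hm (hpos _)).ne'
    refine HasDerivAt.of_local_left_inverse (f := τ) (g := φ.symm) (φ.symm.continuous.continuousAt)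
      (hd _) hne ?_
    exact Eventually.of_forall fun y => φ.apply_symm_apply y

/-- extension of a function continuous on `[0,T]` to a continuous function -/
theorem exists_cont_ext {T : ℝ} (hT : 0 ≤ T) {f : ℝ → ℝ} (hf : ContinuousOn f (Icc 0 T)) :
    ∃ g : ℝ → ℝ, Continuous g ∧ (∀ t ∈ Icc (0 : ℝ) T, g t = f t) ∧
      ∀ t, ∃ s ∈ Icc (0 : ℝ) T, g t = f s := by
  refine ⟨Set.IccExtend hT (Icc (0:ℝ) T |>.domRestrict f), ?_, ?_, ?_⟩
  · apply Continuous.Icc_extend'
    exact continuousOn_iff_continuous_domRestrict.1 hf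
  · intro s hs
    rw [Set.IccExtend_of_mem hT _ hs]
    rfl
  · intro t
    exact ⟨_, (projIcc 0 T hT t).2, rfl⟩

/-- linear homogeneous equations preserve positivity -/
theorem lin_pos {T : ℝ} {f a : ℝ → ℝ} (ha : ContinuousOn a (Icc 0 T))
    (h : ∀ t ∈ Icc (0 : ℝ) T, HasDerivWithinAt f (a t * f t) (Icc 0 T) t) (h0 : 0 < f 0) :
    ∀ t ∈ Icc (0 : ℝ) T, 0 < f t := by
  intro t ht
  have hT : (0 : ℝ) ≤ T := ht.1.trans ht.2
  obtain ⟨g, hg, hge, -⟩ := exists_cont_ext hT ha
  have := Pool.Agent.Helper702.lin_ode hg (f := f) (fun s hs => by rw [hge s hs]; exact h s hs) t ht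
  rw [this]
  positivity

/-- change of time in a within-derivative -/
theorem comp_time {T : ℝ} {a θ : ℝ → ℝ} {f b : ℝ → ℝ} {S : ℝ}
    (hf : ∀ t ∈ Icc (0 : ℝ) T, HasDerivWithinAt f (a t * b t) (Icc 0 T) t)
    (ha : ∀ t, a t ≠ 0)
    (hθ : ∀ s, HasDerivAt θ (a (θ s))⁻¹ s) (hm : ∀ s ∈ Icc (0 : ℝ) S, θ s ∈ Icc (0 : ℝ) T) :
    ∀ s ∈ Icc (0 : ℝ) S, HasDerivWithinAt (fun s => f (θ s)) (b (θ s)) (Icc 0 S) s := by
  intro s hs
  have h1 := HasDerivWithinAt.scomp (t' := Icc (0:ℝ) T) s (hf (θ s) (hm s hs)) ((hθ s).hasDerivWithinAt (s := Icc 0 S)) (fun x hx => hm x hx)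
  refine h1.congr_deriv ?_
  rw [smul_eq_mul, ← mul_assoc, inv_mul_cancel₀ (ha _), one_mul]

end Pool.Agent.H761R3.Arn
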