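import Mathlib
import Pool.Agent.H761R3.Arn.TimeChange
import Pool.Agent.Helper702.OdeD

set_option autoImplicit false

namespace Pool.Agent.H761R3.Arn

open Set Real Filter Topology
open Pool.Agent.Helper702 (Sol)

/-- names of the state variables -/
inductive Va (ι : Type) : Type
  | z | h | κ | u | v | A | B
  | y (i : ι) | c (i : ι) | s (i : ι)

variable {ι : Type} [Fintype ι]

/-- squared euclidean norm -/
def nn (x : Va ι → ℝ) : ℝ :=
  x .z ^ 2 + x .h ^ 2 + x .κ ^ 2 + x .u ^ 2 + x .v ^ 2 + x .A ^ 2 + x .B ^ 2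
    + ∑ i, (x (.y i) ^ 2 + x (.c i) ^ 2 + x (.s i) ^ 2)

/-- the homogeneous part of the radial growth rate -/
def gg (N : ℕ) (H : ℝ → (ι → ℝ) → ℝ) (x : Va ι → ℝ) : ℝ :=
  (x .z ^ 2) ^ (2 * N) * x .B ^ 2 * (8 * x .h * ∑ i, x (.c i)
      - 8 * ∑ i, (x (.c i) ^ 2 + x (.s i) ^ 2) - (2 * (Fintype.card ι : ℝ) - 1) * x .h ^ 2)
    - 4 * H (x .z ^ 2) (fun i => x .z * x (.y i)) * nn x ^ 2

/-- the radial growth rate -/
def rr (N : ℕ) (H : ℝ → (ι → ℝ) → ℝ) (x : Va ι → ℝ) : ℝ := gg N H x - nn x ^ (2 * N + 3)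

/-- the tangential part of the vector field -/
def tang (N : ℕ) (x : Va ι → ℝ) : Va ι → ℝ
  | .z => 0 | .h => 0 | .κ => 0 | .y _ => 0
  | .u => -(x .z ^ 2 * x .v) * nn x ^ (2 * N + 1)
  | .v => (x .z ^ 2 * x .u) * nn x ^ (2 * N + 1)
  | .c i => -(x .z * x (.y i) * x (.s i)) * nn x ^ (2 * N + 1)
  | .s i => (x .z * x (.y i) * x (.c i)) * nn x ^ (2 * N + 1)
  | .A => -(x .κ ^ 2 * x .u * x .B ^ 2) * nn x ^ (2 * N)
  | .B => (x .κ ^ 2 * x .u * x .A * x .B) * nn x ^ (2 * N)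

/-- the vector field -/
def fld (N : ℕ) (H : ℝ → (ι → ℝ) → ℝ) (x : Va ι → ℝ) (j : Va ι) : ℝ :=
  tang N x j + rr N H x * x j

/-- solutions on `[0,T]` -/
def IsSol (N : ℕ) (H : ℝ → (ι → ℝ) → ℝ) (T : ℝ) (γ : ℝ → Va ι → ℝ) : Prop :=
  ∀ t ∈ Icc (0 : ℝ) T, ∀ j, HasDerivWithinAt (fun t => γ t j) (fld N H (γ t) j) (Icc 0 T) t

theorem nn_nonneg (x : Va ι → ℝ) : 0 ≤ nn x := by
  unfold nn
  have : 0 ≤ ∑ i, (x (.y i) ^ 2 + x (.c i) ^ 2 + x (.s i) ^ 2) :=
    Finset.sum_nonneg fun i _ => by positivity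
  positivity

theorem sq_le_nn (x : Va ι → ℝ) (j : Va ι) : x j ^ 2 ≤ nn x := by
  have hs : ∀ i : ι, x (.y i) ^ 2 + x (.c i) ^ 2 + x (.s i) ^ 2 ≤
      ∑ i, (x (.y i) ^ 2 + x (.c i) ^ 2 + x (.s i) ^ 2) := fun i =>
    Finset.single_le_sum (f := fun i => x (.y i) ^ 2 + x (.c i) ^ 2 + x (.s i) ^ 2)
      (fun i _ => by positivity) (Finset.mem_univ i)
  have h0 : 0 ≤ ∑ i, (x (.y i) ^ 2 + x (.c i) ^ 2 + x (.s i) ^ 2) :=
    Finset.sum_nonneg fun i _ => by positivity
  unfold nn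
  cases j with
  | y i => have := hs i; nlinarith [sq_nonneg (x .z), sq_nonneg (x .h), sq_nonneg (x .κ), sq_nonneg (x .u), sq_nonneg (x .v), sq_nonneg (x .A), sq_nonneg (x .B), sq_nonneg (x (.c i)), sq_nonneg (x (.s i))]
  | c i => have := hs i; nlinarith [sq_nonneg (x .z), sq_nonneg (x .h), sq_nonneg (x .κ), sq_nonneg (x .u), sq_nonneg (x .v), sq_nonneg (x .A), sq_nonneg (x .B), sq_nonneg (x (.y i)), sq_nonneg (x (.s i))]
  | s i => have := hs i; nlinarith [sq_nonneg (x .z), sq_nonneg (x .h), sq_nonneg (x .κ), sq_nonneg (x .u), sq_nonneg (x .v), sq_nonneg (x .A), sq_nonneg (x .B), sq_nonneg (x (.c i)), sq_nonneg (x (.y i))]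
  | z => nlinarith [sq_nonneg (x .z), sq_nonneg (x .h), sq_nonneg (x .κ), sq_nonneg (x .u), sq_nonneg (x .v), sq_nonneg (x .A), sq_nonneg (x .B)]
  | h => nlinarith [sq_nonneg (x .z), sq_nonneg (x .h), sq_nonneg (x .κ), sq_nonneg (x .u), sq_nonneg (x .v), sq_nonneg (x .A), sq_nonneg (x .B)]
  | κ => nlinarith [sq_nonneg (x .z), sq_nonneg (x .h), sq_nonneg (x .κ), sq_nonneg (x .u), sq_nonneg (x .v), sq_nonneg (x .A), sq_nonneg (x .B)]
  | u => nlinarith [sq_nonneg (x .z), sq_nonneg (x .h), sq_nonneg (x .κ), sq_nonneg (x .u), sq_nonneg (x .v), sq_nonneg (x .A), sq_nonneg (x .B)]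
  | v => nlinarith [sq_nonneg (x .z), sq_nonneg (x .h), sq_nonneg (x .κ), sq_nonneg (x .u), sq_nonneg (x .v), sq_nonneg (x .A), sq_nonneg (x .B)]
  | A => nlinarith [sq_nonneg (x .z), sq_nonneg (x .h), sq_nonneg (x .κ), sq_nonneg (x .u), sq_nonneg (x .v), sq_nonneg (x .A), sq_nonneg (x .B)]
  | B => nlinarith [sq_nonneg (x .z), sq_nonneg (x .h), sq_nonneg (x .κ), sq_nonneg (x .u), sq_nonneg (x .v), sq_nonneg (x .A), sq_nonneg (x .B)]

theorem nn_continuous : Continuous (nn : (Va ι → ℝ) → ℝ) := by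
  unfold nn; fun_prop

/-- the squared norm along a solution -/
theorem nn_deriv {N : ℕ} {H : ℝ → (ι → ℝ) → ℝ} {T : ℝ} {γ : ℝ → Va ι → ℝ} (h : IsSol N H T γ) :
    ∀ t ∈ Icc (0 : ℝ) T, HasDerivWithinAt (fun t => nn (γ t)) ((2 * rr N H (γ t)) * nn (γ t)) (Icc 0 T) t := by
  intro t ht
  have hd := h t ht
  unfold nn
  have hsum : HasDerivWithinAt (fun t => ∑ i, (γ t (.y i) ^ 2 + γ t (.c i) ^ 2 + γ t (.s i) ^ 2))
      (∑ i, (2 * rr N H (γ t) * (γ t (.y i) ^ 2 + γ t (.c i) ^ 2 + γ t (.s i) ^ 2))) (Icc 0 T) t := by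
    have := HasDerivWithinAt.fun_sum (u := (Finset.univ : Finset ι))
      (A := fun i t => (γ t (.y i) ^ 2 + γ t (.c i) ^ 2 + γ t (.s i) ^ 2))
      (A' := fun i => (2 * rr N H (γ t) * (γ t (.y i) ^ 2 + γ t (.c i) ^ 2 + γ t (.s i) ^ 2)))
      (s := Icc 0 T) (x := t) ?_
    · exact this
    · intro i _
      refine ((((hd (.y i)).fun_pow 2).fun_add ((hd (.c i)).fun_pow 2)).fun_add ((hd (.s i)).fun_pow 2)).congr_deriv ?_
      simp only [fld, tang]
      push_cast
      ring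
  refine (((((((((hd .z).fun_pow 2).fun_add ((hd .h).fun_pow 2)).fun_add ((hd .κ).fun_pow 2)).fun_add
    ((hd .u).fun_pow 2)).fun_add ((hd .v).fun_pow 2)).fun_add ((hd .A).fun_pow 2)).fun_add
    ((hd .B).fun_pow 2)).fun_add hsum).congr_deriv ?_
  simp only [fld, tang]
  rw [← Finset.mul_sum]
  push_cast
  ring

theorem quot_deriv {x r : ℝ → ℝ} {φ ρ t : ℝ} {s : Set ℝ} (hx : HasDerivWithinAt x (φ + ρ * x t) s t)
    (hr : HasDerivWithinAt r (ρ * r t) s t) (hr0 : r t ≠ 0) :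
    HasDerivWithinAt (fun t => x t / r t) (φ / r t) s t := by
  refine (hx.fun_div hr hr0).congr_deriv ?_
  field_simp
  ring

/-- homogeneity of `H` -/
def Homog (N : ℕ) (H : ℝ → (ι → ℝ) → ℝ) : Prop :=
  ∀ (l : ℝ) (z : ℝ) (y : ι → ℝ), H (l * z) (fun i => l * y i) = l ^ (2 * N) * H z y

theorem toSol {N : ℕ} {H : ℝ → (ι → ℝ) → ℝ} (hgc : Continuous (gg N H)) (hhom : Homog N H)
    {T : ℝ} (hT : 0 ≤ T) {γ : ℝ → Va ι → ℝ} (h : IsSol N H T γ) (h0 : 0 < nn (γ 0)) :
    ∃ (S : ℝ) (θ E : ℝ → ℝ), 0 ≤ S ∧ θ 0 = 0 ∧ θ S = T ∧ E 0 = 0 ∧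
      (∀ m : ℝ, 0 ≤ m → (∀ t ∈ Icc (0 : ℝ) T, m ≤ nn (γ t)) → m ^ (2 * N + 3) * T ≤ E T) ∧
      (∀ m : ℝ, 0 ≤ m → (∀ t ∈ Icc (0 : ℝ) T, m ≤ nn (γ t)) → m ^ (2 * N + 2) * T ≤ S) ∧
      (∀ M : ℝ, (∀ t ∈ Icc (0 : ℝ) T, nn (γ t) ≤ M) → E T ≤ M * S) ∧
      Sol N H S (fun t => (γ (θ t) .z / √(nn (γ (θ t)))) ^ 2)
        (fun t => γ (θ t) .h / √(nn (γ (θ t))))
        (fun t => (γ (θ t) .κ / √(nn (γ (θ t)))) ^ 2)
        (fun t => γ (θ t) .u / √(nn (γ (θ t))))
        (fun t => γ (θ t) .v / √(nn (γ (θ t))))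
        (fun t => γ (θ t) .A / √(nn (γ (θ t))))
        (fun t => γ (θ t) .B / √(nn (γ (θ t))))
        (fun t => √(nn (γ (θ t))) * Real.exp (E (θ t)))
        (fun i t => (γ (θ t) .z / √(nn (γ (θ t)))) * (γ (θ t) (.y i) / √(nn (γ (θ t)))))
        (fun i t => γ (θ t) (.c i) / √(nn (γ (θ t))))
        (fun i t => γ (θ t) (.s i) / √(nn (γ (θ t)))) := by
  -- continuity of the components
  have hcomp : ContinuousOn γ (Icc 0 T) := by
    rw [continuousOn_pi]
    intro j t ht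
    exact (h t ht j).continuousWithinAt
  have hrrc : ContinuousOn (fun t => rr N H (γ t)) (Icc 0 T) := by
    have : Continuous (rr N H) := hgc.sub (nn_continuous.pow _)
    exact this.comp_continuousOn hcomp
  have hnnc : ContinuousOn (fun t => nn (γ t)) (Icc 0 T) := nn_continuous.comp_continuousOn hcomp
  have hpos : ∀ t ∈ Icc (0 : ℝ) T, 0 < nn (γ t) :=
    lin_pos (a := fun t => 2 * rr N H (γ t)) (continuousOn_const.mul hrrc) (nn_deriv h) h0
  -- lower bound
  obtain ⟨t0, ht0, hmin⟩ := isCompact_Icc.exists_isMinOn ⟨0, ⟨le_rfl, hT⟩⟩ hnnc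
  set μ := nn (γ t0) with hμ
  have hμpos : 0 < μ := hpos t0 ht0
  have hμle : ∀ t ∈ Icc (0 : ℝ) T, μ ≤ nn (γ t) := fun t ht => hmin ht
  obtain ⟨q, hqc, hqe, hqv⟩ := exists_cont_ext hT hnnc
  have hqμ : ∀ t, μ ≤ q t := by
    intro t
    obtain ⟨s, hs, hqs⟩ := hqv t
    rw [hqs]; exact hμle s hs
  have hq0 : ∀ t, 0 < q t := fun t => lt_of_lt_of_le hμpos (hqμ t)
  set a : ℝ → ℝ := fun t => q t ^ (2 * N + 2) with ha
  have hac : Continuous a := hqc.pow _
  have ham : ∀ t, μ ^ (2 * N + 2) ≤ a t := fun t => pow_le_pow_left₀ hμpos.le (hqμ t) _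
  have hane : ∀ t, a t ≠ 0 := fun t => (pow_pos (hq0 t) _).ne'
  obtain ⟨θ, hθ1, hθ2, hθm, hθd⟩ := time_inv hac (pow_pos hμpos (2 * N + 2)) ham
  set S := ∫ s in (0 : ℝ)..T, a s with hS
  have hθ0 : θ 0 = 0 := by
    have := hθ1 0
    rwa [intervalIntegral.integral_same] at this
  have hθS : θ S = T := hθ1 T
  have hS0 : 0 ≤ S := intervalIntegral.integral_nonneg hT fun t _ => (pow_pos (hq0 t) _).le
  have hmaps : ∀ s ∈ Icc (0 : ℝ) S, θ s ∈ Icc (0 : ℝ) T := by
    intro s hs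
    constructor
    · rw [← hθ0]; exact hθm.monotone hs.1
    · rw [← hθS]; exact hθm.monotone hs.2
  set E : ℝ → ℝ := fun t => ∫ s in (0 : ℝ)..t, q s ^ (2 * N + 3) with hE
  have hEd : ∀ t, HasDerivAt E (q t ^ (2 * N + 3)) t := fun t =>
    ((hqc.pow _).integral_hasStrictDerivAt 0 t).hasDerivAt
  refine ⟨S, θ, E, hS0, hθ0, hθS, by simp [hE], ?_, ?_, ?_, ?_⟩
  · intro m hm hmn
    have h1 := intervalIntegral.integral_mono_on (μ := MeasureTheory.volume) (a := 0) (b := T) hT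
      (f := fun _ => m ^ (2 * N + 3)) (g := fun s => q s ^ (2 * N + 3))
      (continuous_const.intervalIntegrable _ _)
      ((hqc.pow (2 * N + 3)).intervalIntegrable _ _) (fun s hs => by
        show m ^ (2 * N + 3) ≤ q s ^ (2 * N + 3)
        rw [hqe s hs]
        exact pow_le_pow_left₀ hm (hmn s hs) _)
    rw [intervalIntegral.integral_const, smul_eq_mul] at h1
    simp only [hE]
    linarith
  · intro m hm hmn
    have h1 := intervalIntegral.integral_mono_on (μ := MeasureTheory.volume) (a := 0) (b := T) hT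
      (continuous_const.intervalIntegrable _ _ : IntervalIntegrable (fun _ : ℝ => m ^ (2 * N + 2)) MeasureTheory.volume 0 T)
      (hac.intervalIntegrable _ _) (fun s hs => by
        show m ^ (2 * N + 2) ≤ q s ^ (2 * N + 2)
        rw [hqe s hs]
        exact pow_le_pow_left₀ hm (hmn s hs) _)
    rw [intervalIntegral.integral_const, smul_eq_mul] at h1
    linarith
  · intro M hM
    have h1 := intervalIntegral.integral_mono_on (μ := MeasureTheory.volume) (a := 0) (b := T) hT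
      (f := fun s => q s ^ (2 * N + 3)) (g := fun s => M * a s)
      ((hqc.pow (2 * N + 3)).intervalIntegrable _ _)
      ((continuous_const.mul hac).intervalIntegrable _ _)
      (fun s hs => by
        show q s ^ (2 * N + 3) ≤ M * q s ^ (2 * N + 2)
        rw [pow_succ, mul_comm]
        apply mul_le_mul_of_nonneg_right _ (pow_pos (hq0 s) _).le
        rw [hqe s hs]; exact hM s hs)
    rw [intervalIntegral.integral_const_mul] at h1
    simp only [hE]
    exact h1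
  · -- the derivative of the norm
    set r : ℝ → ℝ := fun t => √(nn (γ t)) with hr
    have hr2 : ∀ t, r t ^ 2 = nn (γ t) := fun t => Real.sq_sqrt (nn_nonneg _)
    have hrpos : ∀ t ∈ Icc (0 : ℝ) T, 0 < r t := fun t ht => Real.sqrt_pos.2 (hpos t ht)
    have hrd : ∀ t ∈ Icc (0 : ℝ) T, HasDerivWithinAt r (rr N H (γ t) * r t) (Icc 0 T) t := by
      intro t ht
      refine ((nn_deriv h t ht).sqrt (hpos t ht).ne').congr_deriv ?_
      have h1 := (hrpos t ht).ne'
      have h2 := hr2 t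
      have h3 : √(nn (γ t)) = r t := rfl
      rw [h3, ← h2]
      field_simp
    have hqd : ∀ (j : Va ι) (b : ℝ → ℝ), (∀ t ∈ Icc (0 : ℝ) T, tang N (γ t) j / r t = a t * b t) →
        ∀ s ∈ Icc (0 : ℝ) S, HasDerivWithinAt (fun s => γ (θ s) j / √(nn (γ (θ s)))) (b (θ s)) (Icc 0 S) s := by
      intro j b hb
      refine comp_time (f := fun t => γ t j / r t) (a := a) ?_ hane hθd hmaps
      intro t ht
      rw [← hb t ht]
      exact quot_deriv (h t ht j) (hrd t ht) (hrpos t ht).ne'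
    have haq : ∀ t ∈ Icc (0 : ℝ) T, a t = (r t ^ 2) ^ (2 * N + 2) := by
      intro t ht
      simp only [ha]
      rw [hqe t ht, hr2]
    have hz := hqd .z (fun _ => 0) (fun t ht => by simp [tang])
    have hh := hqd .h (fun _ => 0) (fun t ht => by simp [tang])
    have hκ := hqd .κ (fun _ => 0) (fun t ht => by simp [tang])
    have hy := fun i => hqd (.y i) (fun _ => 0) (fun t ht => by simp [tang])
    have hu := hqd .u (fun t => -((γ t .z / r t) ^ 2 * (γ t .v / r t))) (fun t ht => by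
      have h1 := (hrpos t ht).ne'
      rw [haq t ht]
      simp only [tang]
      rw [← hr2 t]
      field_simp
      ring)
    have hv := hqd .v (fun t => ((γ t .z / r t) ^ 2 * (γ t .u / r t))) (fun t ht => by
      have h1 := (hrpos t ht).ne'
      rw [haq t ht]
      simp only [tang]
      rw [← hr2 t]
      field_simp
      ring)
    have hc := fun i => hqd (.c i) (fun t => -((γ t .z / r t) * (γ t (.y i) / r t) * (γ t (.s i) / r t))) (fun t ht => by
      have h1 := (hrpos t ht).ne'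
      rw [haq t ht]
      simp only [tang]
      rw [← hr2 t]
      field_simp
      ring)
    have hs := fun i => hqd (.s i) (fun t => ((γ t .z / r t) * (γ t (.y i) / r t) * (γ t (.c i) / r t))) (fun t ht => by
      have h1 := (hrpos t ht).ne'
      rw [haq t ht]
      simp only [tang]
      rw [← hr2 t]
      field_simp
      ring)
    have hA := hqd .A (fun t => -((γ t .κ / r t) ^ 2 * (γ t .u / r t) * (γ t .B / r t) ^ 2)) (fun t ht => by
      have h1 := (hrpos t ht).ne'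
      rw [haq t ht]
      simp only [tang]
      rw [← hr2 t]
      field_simp
      ring)
    have hB := hqd .B (fun t => ((γ t .κ / r t) ^ 2 * (γ t .u / r t) * (γ t .A / r t) * (γ t .B / r t))) (fun t ht => by
      have h1 := (hrpos t ht).ne'
      rw [haq t ht]
      simp only [tang]
      rw [← hr2 t]
      field_simp
      ring)
    constructor
    · intro s hs'
      refine ((hz s hs').fun_pow 2).congr_deriv ?_
      simp
    · exact hh
    · intro s hs'
      refine ((hκ s hs').fun_pow 2).congr_deriv ?_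
      simp
    · intro i s hs'
      refine ((hz s hs').fun_mul (hy i s hs')).congr_deriv ?_
      simp
    · exact hu
    · exact hv
    · exact fun i => hc i
    · exact fun i => hs i
    · exact hA
    · exact hB
    · -- the equation for w
      refine comp_time (f := fun t => r t * Real.exp (E t)) (a := a)
        (b := fun t => (((γ t .z / r t) ^ 2) ^ (2 * N) * (γ t .B / r t) ^ 2 * (8 * (γ t .h / r t) * ∑ i, (γ t (.c i) / r t)
          - 8 * ∑ i, ((γ t (.c i) / r t) ^ 2 + (γ t (.s i) / r t) ^ 2)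
          - (2 * (Fintype.card ι : ℝ) - 1) * (γ t .h / r t) ^ 2)
          - 4 * H ((γ t .z / r t) ^ 2) (fun i => (γ t .z / r t) * (γ t (.y i) / r t))) * (r t * Real.exp (E t)))
        ?_ hane hθd hmaps
      intro t ht
      have h1 := (hrpos t ht).ne'
      have hEw : HasDerivWithinAt E (q t ^ (2 * N + 3)) (Icc 0 T) t := (hEd t).hasDerivWithinAt
      refine ((hrd t ht).fun_mul hEw.exp).congr_deriv ?_
      rw [haq t ht, hqe t ht]
      have hHh : H (γ t .z ^ 2) (fun i => γ t .z * γ t (.y i)) =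
          (r t ^ 2) ^ (2 * N) * H ((γ t .z / r t) ^ 2) (fun i => (γ t .z / r t) * (γ t (.y i) / r t)) := by
        rw [← hhom (r t ^ 2)]
        congr 1
        · field_simp
        · funext i
          field_simp
      have e1 : ∑ i, (γ t (.c i) / r t) = (∑ i, γ t (.c i)) / r t := by rw [Finset.sum_div]
      have e2 : ∑ i, ((γ t (.c i) / r t) ^ 2 + (γ t (.s i) / r t) ^ 2) =
          (∑ i, (γ t (.c i) ^ 2 + γ t (.s i) ^ 2)) / r t ^ 2 := by
        rw [Finset.sum_div]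
        apply Finset.sum_congr rfl
        intro i _
        field_simp
      have e3 : ((γ t .z / r t) ^ 2) ^ (2 * N) = (γ t .z ^ 2) ^ (2 * N) / (r t ^ 2) ^ (2 * N) := by
        rw [div_pow, div_pow]
      rw [e1, e2]
      unfold rr gg
      rw [hHh, ← hr2 t, e3]
      have hR : (r t ^ 2) ^ (2 * N) ≠ 0 := pow_ne_zero _ (pow_ne_zero _ h1)
      have e4 : (r t ^ 2) ^ (2 * N + 3) = (r t ^ 2) ^ (2 * N) * r t ^ 6 := by rw [pow_add]; ring
      have e5 : (r t ^ 2) ^ (2 * N + 2) = (r t ^ 2) ^ (2 * N) * r t ^ 4 := by rw [pow_add]; ring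
      rw [e4, e5]
      generalize (r t ^ 2) ^ (2 * N) = R at *
      generalize (γ t .z ^ 2) ^ (2 * N) = Z at *
      generalize H ((γ t .z / r t) ^ 2) (fun i => (γ t .z / r t) * (γ t (.y i) / r t)) = H1 at *
      generalize ∑ i, γ t (.c i) = C1 at *
      generalize ∑ i, (γ t (.c i) ^ 2 + γ t (.s i) ^ 2) = C2 at *
      field_simp
      ring

end Pool.Agent.H761R3.Arn
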