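import Mathlib

set_option autoImplicit false

namespace Pool.Agent.H761R3.Arn

open MvPolynomial Filter Topology

/-- One coded monomial of a polynomial vector field: `(i, [e_0, e_1, ...], (p, q))` stands for the
monomial `p / (q + 1) * x_0 ^ e_0 * x_1 ^ e_1 * ...` in the component number `i`. -/
abbrev Term : Type := ℕ × List ℕ × (ℤ × ℕ)

/-- the exponent vector in dimension `n` given by a list of natural numbers -/
noncomputable def exps (n : ℕ) (l : List ℕ) : Fin n →₀ ℕ :=
  Finsupp.equivFunOnFinite.symm fun j => l.getD j 0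

/-- The polynomial vector field on `ℝ^n` with rational coefficients given by a finite list of
coded monomials (the sum of all of them). -/
noncomputable def field (n : ℕ) (L : List Term) (i : Fin n) : MvPolynomial (Fin n) ℚ :=
  (L.map fun t => if t.1 = (i : ℕ) then monomial (exps n t.2.1) ((t.2.2.1 : ℚ) / ((t.2.2.2 : ℚ) + 1)) else 0).sum

/-- The coded field has total degree at most `d` and vanishes at the origin. -/
def Valid (n d : ℕ) (L : List Term) : Prop :=
  ∀ i : Fin n, (field n L i).totalDegree ≤ d ∧ constantCoeff (field n L i) = 0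

/-- `γ` is the solution of `x' = f(x)`, `x(0) = x₀`, on `[0, ∞)` (unique by Picard-Lindelöf). -/
def Solves {n : ℕ} (f : Fin n → MvPolynomial (Fin n) ℚ) (x₀ : Fin n → ℝ) (γ : ℝ → Fin n → ℝ) : Prop :=
  γ 0 = x₀ ∧ ∀ t : ℝ, 0 ≤ t → HasDerivWithinAt γ (fun i => aeval (γ t) (f i)) (Set.Ici 0) t

/-- Lyapunov stability of the origin -/
def LyapStable {n : ℕ} (f : Fin n → MvPolynomial (Fin n) ℚ) : Prop :=
  ∀ ε : ℝ, 0 < ε → ∃ δ : ℝ, 0 < δ ∧ ∀ x₀ : Fin n → ℝ, ‖x₀‖ < δ →
    ∃ γ : ℝ → Fin n → ℝ, Solves f x₀ γ ∧ ∀ t : ℝ, 0 ≤ t → ‖γ t‖ < ε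

/-- local asymptotic stability of the origin -/
def LocAsympStable {n : ℕ} (f : Fin n → MvPolynomial (Fin n) ℚ) : Prop :=
  LyapStable f ∧ ∃ δ : ℝ, 0 < δ ∧ ∀ x₀ : Fin n → ℝ, ‖x₀‖ < δ →
    ∃ γ : ℝ → Fin n → ℝ, Solves f x₀ γ ∧ Tendsto γ atTop (𝓝 0)

/-- global asymptotic stability of the origin -/
def GlobAsympStable {n : ℕ} (f : Fin n → MvPolynomial (Fin n) ℚ) : Prop :=
  LyapStable f ∧ ∀ x₀ : Fin n → ℝ, ∃ γ : ℝ → Fin n → ℝ, Solves f x₀ γ ∧ Tendsto γ atTop (𝓝 0)

/-! ### Basic facts on the coding -/

theorem field_append (n : ℕ) (L L' : List Term) (i : Fin n) :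
    field n (L ++ L') i = field n L i + field n L' i := by
  simp [field]

theorem field_rep (n : ℕ) (L : List Term) (i : Fin n) (a : ℕ) :
    field n ((List.range a).flatMap fun _ => L) i = (a : MvPolynomial (Fin n) ℚ) * field n L i := by
  induction a with
  | zero => simp [field]
  | succ a ih =>
    rw [List.range_succ, List.flatMap_append, field_append, ih]
    simp
    ring

/-- list of coded monomials of a polynomial vector field -/
noncomputable def termsOf {V : Type} [Fintype V] {n : ℕ} (e : V ≃ Fin n) (F : V → MvPolynomial V ℤ) :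
    List Term :=
  (Finset.univ : Finset V).toList.flatMap fun i =>
    (F i).support.toList.map fun m => ((e i : ℕ), List.ofFn (fun j => m (e.symm j)), (coeff m (F i), 0))

theorem sum_flatMap'' {α M : Type} [AddMonoid M] (l : List α) (f : α → List M) :
    (l.flatMap f).sum = (l.map fun a => (f a).sum).sum := by
  induction l with
  | nil => simp
  | cons a l ih => simp [ih]

theorem exps_ofFn {V : Type} [Fintype V] {n : ℕ} (e : V ≃ Fin n) (m : V →₀ ℕ) :
    exps n (List.ofFn (fun j => m (e.symm j))) = Finsupp.mapDomain e m := by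
  ext j
  simp only [exps, Finsupp.equivFunOnFinite_symm_apply_apply]
  have h2 : Finsupp.mapDomain e m j = m (e.symm j) := by
    have := Finsupp.mapDomain_equiv_apply (f := e) m j
    exact this
  rw [h2, List.getD_eq_getElem _ _ (by simp)]
  simp

theorem field_termsOf {V : Type} [Fintype V] {n : ℕ} (e : V ≃ Fin n) (F : V → MvPolynomial V ℤ) (i : V) :
    field n (termsOf e F) (e i) = rename e (map (Int.castRingHom ℚ) (F i)) := by
  classical
  unfold field termsOf
  rw [List.map_flatMap, sum_flatMap'']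
  simp only [List.map_map]
  rw [Finset.sum_map_toList]
  have hinner : ∀ i' : V, ((F i').support.toList.map ((fun t : Term =>
      if t.1 = (e i : ℕ) then monomial (exps n t.2.1) ((t.2.2.1 : ℚ) / ((t.2.2.2 : ℚ) + 1)) else 0) ∘
        fun m => ((e i' : ℕ), List.ofFn (fun j => m (e.symm j)), (coeff m (F i'), 0)))).sum =
      if i' = i then rename e (map (Int.castRingHom ℚ) (F i)) else 0 := by
    intro i'
    rw [Finset.sum_map_toList]
    by_cases hi : i' = i
    · subst hi
      simp only [if_true, Function.comp]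
      conv_rhs => rw [(F i').as_sum]
      rw [map_sum, map_sum]
      apply Finset.sum_congr rfl
      intro m _
      rw [exps_ofFn, map_monomial, rename_monomial]
      congr 1
      simp
    · have : ¬ ((e i' : ℕ) = (e i : ℕ)) := fun h => hi (e.injective (Fin.ext h))
      simp [hi, Function.comp, this]
  simp only [hinner]
  simp

end Pool.Agent.H761R3.Arn
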