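import Mathlib
import Pool.Agent.GR.Flow

set_option autoImplicit false

namespace Pool.Agent.H761R3.Arn

open Set Real Filter Topology

/-- real polynomial maps are continuously differentiable -/
theorem contDiff_aeval {n : ℕ} (p : MvPolynomial (Fin n) ℚ) :
    ContDiff ℝ 1 (fun x : Fin n → ℝ => MvPolynomial.aeval x p) := by
  induction p using MvPolynomial.induction_on with
  | C a => simp only [MvPolynomial.aeval_C]; exact contDiff_const
  | add p q hp hq => simp only [map_add]; exact hp.add hq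
  | mul_X p i hp => simp only [map_mul, MvPolynomial.aeval_X]; exact hp.mul (contDiff_apply ℝ ℝ i)

/-- solutions of `x' = F x` on `[0,T]` -/
def SolOn {n : ℕ} (F : (Fin n → ℝ) → Fin n → ℝ) (T : ℝ) (γ : ℝ → Fin n → ℝ) : Prop :=
  ∀ t ∈ Icc (0 : ℝ) T, HasDerivWithinAt γ (F (γ t)) (Icc 0 T) t

/-- componentwise truncation -/
noncomputable def clamp {n : ℕ} (R : ℝ) (x : Fin n → ℝ) : Fin n → ℝ := fun i => max (-R) (min R (x i))

theorem clamp_lip {n : ℕ} (R : ℝ) : LipschitzWith 1 (clamp R : (Fin n → ℝ) → _) := by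
  refine LipschitzWith.of_dist_le_mul fun x y => ?_
  rw [NNReal.coe_one, one_mul, dist_pi_le_iff dist_nonneg]
  intro i
  refine le_trans ?_ (dist_le_pi_dist x y i)
  simp only [clamp, Real.dist_eq]
  rw [max_comm (-R), max_comm (-R)]
  refine (abs_max_sub_max_le_abs _ _ _).trans ?_
  refine (abs_min_sub_min_le_max _ _ _ _).trans ?_
  simp

theorem clamp_mem {n : ℕ} {R : ℝ} (hR : 0 ≤ R) (x : Fin n → ℝ) : clamp R x ∈ Metric.closedBall (0 : Fin n → ℝ) R := by
  rw [mem_closedBall_zero_iff, pi_norm_le_iff_of_nonneg hR]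
  intro i
  rw [Real.norm_eq_abs, abs_le]
  simp only [clamp]
  exact ⟨le_max_left _ _, max_le (by linarith) (min_le_left _ _)⟩

theorem clamp_of_norm {n : ℕ} {R : ℝ} {x : Fin n → ℝ} (h : ‖x‖ ≤ R) : clamp R x = x := by
  have hR : 0 ≤ R := (norm_nonneg x).trans h
  funext i
  have h1 : |x i| ≤ R := by
    have := norm_le_pi_norm x i
    rw [Real.norm_eq_abs] at this
    linarith
  have h2 := abs_le.1 h1
  simp only [clamp]
  rw [min_eq_right h2.2, max_eq_right h2.1]

/-- global existence from an a priori bound -/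
theorem global_exists {n : ℕ} {F : (Fin n → ℝ) → Fin n → ℝ} (hF : ContDiff ℝ 1 F) (x0 : Fin n → ℝ)
    (R : ℝ) (hR : ∀ T : ℝ, 0 ≤ T → ∀ γ, SolOn F T γ → γ 0 = x0 → ‖γ T‖ < R) :
    ∃ γ : ℝ → Fin n → ℝ, γ 0 = x0 ∧ ∀ t, 0 ≤ t → HasDerivAt γ (F (γ t)) t := by
  have hx0 : ‖x0‖ < R := by
    have := hR 0 le_rfl (fun _ => x0) (fun t ht => by
      have : t = 0 := le_antisymm ht.2 ht.1
      subst this
      have h1 : (Icc (0 : ℝ) 0).Subsingleton := by rw [Icc_self]; exact subsingleton_singleton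
      rw [hasDerivWithinAt_iff_hasFDerivWithinAt]
      exact HasFDerivWithinAt.of_subsingleton h1) rfl
    exact this
  have hRpos : 0 < R := lt_of_le_of_lt (norm_nonneg _) hx0
  obtain ⟨K, hK⟩ := hF.contDiffOn.exists_lipschitzOnWith (s := Metric.closedBall (0 : Fin n → ℝ) R)
    one_ne_zero (convex_closedBall _ _) (isCompact_closedBall _ _)
  obtain ⟨M, hM⟩ := (isCompact_closedBall (0 : Fin n → ℝ) R).exists_bound_of_continuousOn hF.continuous.continuousOn
  have hM0 : 0 ≤ M := (norm_nonneg _).trans (hM 0 (by simp [hRpos.le]))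
  set X : (Fin n → ℝ) → Fin n → ℝ := fun x => F (clamp R x) with hX
  have hXK : LipschitzWith (K * 1) X := by
    rw [← lipschitzOnWith_univ]
    exact hK.comp (clamp_lip R).lipschitzOnWith (fun x _ => clamp_mem hRpos.le x)
  have hXM : ∀ x, ‖X x‖ ≤ (⟨M, hM0⟩ : NNReal) := fun x => hM _ (clamp_mem hRpos.le x)
  obtain ⟨γ, hγ0, hγ⟩ := GR.Flow.exists_solution hXK hXM x0
  have hγc : Continuous γ := continuous_iff_continuousAt.2 fun t => (hγ t).continuousAt
  -- the solution stays in the ball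
  have hstay : ∀ t, 0 ≤ t → ‖γ t‖ ≤ R := by
    by_contra hcon
    push Not at hcon
    obtain ⟨t1, ht1, ht1R⟩ := hcon
    set A : Set ℝ := {t | 0 ≤ t ∧ R ≤ ‖γ t‖} with hA
    have hAc : IsClosed A := (isClosed_le continuous_const continuous_id).inter (isClosed_le continuous_const hγc.norm)
    have hAne : A.Nonempty := ⟨t1, ht1, ht1R.le⟩
    have hAb : BddBelow A := ⟨0, fun t ht => ht.1⟩
    have hmem : sInf A ∈ A := hAc.csInf_mem hAne hAb
    set T := sInf A with hT
    have hbefore : ∀ t ∈ Icc (0 : ℝ) T, ‖γ t‖ ≤ R := by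
      intro t ht
      rcases ht.2.lt_or_eq with hlt | heq
      · by_contra h
        push Not at h
        exact absurd (csInf_le hAb ⟨ht.1, h.le⟩) (not_le.2 hlt)
      · -- by continuity
        by_contra h
        push Not at h
        rcases ht.1.lt_or_eq with h0 | h0
        · have hcl : ‖γ t‖ ≤ R := by
            have hlim : Tendsto (fun s => ‖γ s‖) (𝓝[<] t) (𝓝 ‖γ t‖) :=
              (hγc.norm.tendsto t).mono_left nhdsWithin_le_nhds
            refine le_of_tendsto hlim ?_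
            have : Ioo (0 : ℝ) t ∈ 𝓝[<] t := Ioo_mem_nhdsLT h0
            filter_upwards [this] with s hs
            by_contra h'
            push Not at h'
            have := csInf_le hAb (⟨hs.1.le, h'.le⟩ : s ∈ A)
            rw [← hT, ← heq] at this
            exact absurd this (not_le.2 hs.2)
          exact absurd hcl (not_le.2 h)
        · rw [← h0, hγ0] at h
          linarith
    have hsol : SolOn F T γ := by
      intro t ht
      have h1 := hγ t
      simp only [hX] at h1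
      rw [clamp_of_norm (hbefore t ht)] at h1
      exact h1.hasDerivWithinAt
    have := hR T hmem.1 γ hsol hγ0
    exact absurd hmem.2 (not_le.2 this)
  refine ⟨γ, hγ0, fun t ht => ?_⟩
  have h1 := hγ t
  simp only [hX] at h1
  rwa [clamp_of_norm (hstay t ht)] at h1

/-- shifting time -/
theorem solOn_shift {n : ℕ} {F : (Fin n → ℝ) → Fin n → ℝ} {γ : ℝ → Fin n → ℝ}
    (h : ∀ t, 0 ≤ t → HasDerivAt γ (F (γ t)) t) (t0 : ℝ) (ht0 : 0 ≤ t0) (T : ℝ) :
    SolOn F T (fun t => γ (t0 + t)) := by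
  intro t ht
  have h1 := (h (t0 + t) (by linarith [ht.1])).scomp t ((hasDerivAt_id t).const_add t0)
  simp only [one_smul] at h1
  exact h1.hasDerivWithinAt

/-- decay of all solutions from an integral estimate -/
theorem decay {n : ℕ} {F : (Fin n → ℝ) → Fin n → ℝ} (hF : ContDiff ℝ 1 F)
    (q : (Fin n → ℝ) → ℝ) (B : ℝ) (hB : 0 < B) (hq1 : ∀ x, ‖x‖ ^ 2 ≤ q x) (hq2 : ∀ x, q x ≤ B * ‖x‖ ^ 2)
    (K : ℝ) (hK : 0 < K) (e : ℕ)
    (key : ∀ T : ℝ, 0 ≤ T → ∀ γ, SolOn F T γ → ∀ m : ℝ, 0 ≤ m → (∀ t ∈ Icc (0 : ℝ) T, m ≤ q (γ t)) →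
      √(q (γ T)) * Real.exp (m ^ e * T) ≤ K * √(q (γ 0))) (x0 : Fin n → ℝ) :
    ∃ γ : ℝ → Fin n → ℝ, γ 0 = x0 ∧ (∀ t, 0 ≤ t → HasDerivAt γ (F (γ t)) t) ∧
      (∀ t, 0 ≤ t → ‖γ t‖ ≤ K * √B * ‖x0‖) ∧ Tendsto γ atTop (𝓝 0) := by
  have hq0 : ∀ x, 0 ≤ q x := fun x => (sq_nonneg _).trans (hq1 x)
  have hn : ∀ x, ‖x‖ ≤ √(q x) := fun x => Real.le_sqrt_of_sq_le (hq1 x)
  have hn2 : ∀ x, √(q x) ≤ √B * ‖x‖ := by
    intro x
    rw [Real.sqrt_le_left (by positivity), mul_pow, Real.sq_sqrt hB.le]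
    exact hq2 x
  have kb : ∀ T : ℝ, 0 ≤ T → ∀ γ, SolOn F T γ → √(q (γ T)) ≤ K * √(q (γ 0)) := by
    intro T hT γ hγ
    have h1 := key T hT γ hγ 0 le_rfl (fun t _ => hq0 _)
    have h2 : 1 ≤ Real.exp ((0 : ℝ) ^ e * T) := Real.one_le_exp (by positivity)
    nlinarith [Real.sqrt_nonneg (q (γ T))]
  have kb2 : ∀ T : ℝ, 0 ≤ T → ∀ γ, SolOn F T γ → ‖γ T‖ ≤ K * √B * ‖γ 0‖ := by
    intro T hT γ hγ
    calc ‖γ T‖ ≤ √(q (γ T)) := hn _
      _ ≤ K * √(q (γ 0)) := kb T hT γ hγ
      _ ≤ K * (√B * ‖γ 0‖) := by gcongr; exact hn2 _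
      _ = _ := by ring
  obtain ⟨γ, hγ0, hγ⟩ := global_exists hF x0 (K * √B * ‖x0‖ + 1) (fun T hT γ hγ h0 => by
    have := kb2 T hT γ hγ
    rw [h0] at this
    linarith)
  refine ⟨γ, hγ0, hγ, ?_, ?_⟩
  · intro t ht
    have h1 := solOn_shift hγ 0 le_rfl t
    have h2 := kb2 t ht _ h1
    simp only [zero_add] at h2
    rwa [hγ0] at h2
  · rw [Metric.tendsto_atTop]
    intro ε hε
    set m : ℝ := (ε / (2 * K)) ^ 2 with hm
    have hmpos : 0 < m := by positivity
    have hsm : √m = ε / (2 * K) := Real.sqrt_sq (by positivity)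
    -- a time at which the solution is small
    obtain ⟨t1, ht1, hsmall⟩ : ∃ t1, 0 ≤ t1 ∧ q (γ t1) < m := by
      by_contra hcon
      push Not at hcon
      set T : ℝ := (K * √(q (γ 0)) / √m) / m ^ e with hT
      have hT0 : 0 ≤ T := by positivity
      have h1 := solOn_shift hγ 0 le_rfl T
      have h2 := key T hT0 _ h1 m hmpos.le (fun t ht => by
        simp only [zero_add]; exact hcon t ht.1)
      simp only [zero_add] at h2
      have h3 : m ^ e * T = K * √(q (γ 0)) / √m := by rw [hT]; field_simp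
      rw [h3] at h2
      have h4 := Real.add_one_le_exp (K * √(q (γ 0)) / √m)
      have h5 : √m ≤ √(q (γ T)) := Real.sqrt_le_sqrt (hcon T hT0)
      have hsmpos : 0 < √m := Real.sqrt_pos.2 hmpos
      have h6 : √m * (K * √(q (γ 0)) / √m + 1) ≤ K * √(q (γ 0)) := by
        calc _ ≤ √(q (γ T)) * Real.exp (K * √(q (γ 0)) / √m) := by gcongr
          _ ≤ _ := h2
      have h7 : √m * (K * √(q (γ 0)) / √m + 1) = K * √(q (γ 0)) + √m := by field_simp
      linarith
    refine ⟨t1, fun t ht => ?_⟩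
    rw [dist_zero_right]
    have h1 := solOn_shift hγ t1 ht1 (t - t1)
    have h2 := kb (t - t1) (by linarith) _ h1
    simp only [add_zero, add_sub_cancel] at h2
    calc ‖γ t‖ ≤ √(q (γ t)) := hn _
      _ ≤ K * √(q (γ t1)) := h2
      _ ≤ K * √m := by gcongr
      _ = ε / 2 := by rw [hsm]; field_simp
      _ < ε := by linarith

end Pool.Agent.H761R3.Arn
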