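import Mathlib
import Pool.Agent.H761R3.Arn.Core

set_option autoImplicit false

namespace Pool.Agent.H761R3.Arn

open Set Real Filter Topology
open Pool.Agent.Helper702 (Sol stable_bound lin_ode_zero const_on rotation pulse Wf Wf_props D_sq lin_ode)

variable {ι : Type} [Fintype ι]

theorem homog_of {N : ℕ} (hN : 0 < N) {H : ℝ → (ι → ℝ) → ℝ} {p : (ι → ℝ) → ℝ}
    (hH : ∀ z y, z ≠ 0 → H z y = z ^ (2 * N) * p (fun i => y i / z)) (hH0 : ∀ y, H 0 y = 0) :
    Homog N H := by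
  intro l z y
  by_cases hz : z = 0
  · subst hz; simp [hH0]
  by_cases hl : l = 0
  · subst hl
    have : 2 * N ≠ 0 := by omega
    simp [hH0, this]
  rw [hH _ _ (mul_ne_zero hl hz), hH _ _ hz]
  have : (fun i => l * y i / (l * z)) = fun i => y i / z := by
    funext i; field_simp
  rw [this, mul_pow]
  ring

theorem IsSol.mono {N : ℕ} {H : ℝ → (ι → ℝ) → ℝ} {T T' : ℝ} {γ : ℝ → Va ι → ℝ}
    (h : IsSol N H T γ) (hT : T' ≤ T) : IsSol N H T' γ := by
  intro t ht j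
  exact (h t ⟨ht.1, ht.2.trans hT⟩ j).mono (Icc_subset_Icc le_rfl hT)

theorem abs_div_le_one (x : Va ι → ℝ) (j : Va ι) (h : 0 < nn x) : |x j / √(nn x)| ≤ 1 := by
  have h1 : 0 < √(nn x) := Real.sqrt_pos.2 h
  rw [abs_div, abs_of_pos h1, div_le_one h1]
  exact Real.abs_le_sqrt (sq_le_nn x j)

theorem key_stable (p : (ι → ℝ) → ℝ) (hp0 : ∀ x, 0 ≤ p x)
    (Cp : ℝ) (hCp : 0 < Cp) (D N : ℕ)
    (hLip : ∀ (x : ι → ℝ) (n : ι → ℤ), (∀ i, |x i - n i| ≤ 1 / 2) →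
      |p x - p (fun i => (n i : ℝ))| ≤ Cp * (1 + ‖x‖) ^ D * ‖x - fun i => (n i : ℝ)‖)
    (hint : ∀ n : ι → ℤ, 1 ≤ p (fun i => (n i : ℝ)))
    (hN : D + 1 ≤ 2 * N) (H : ℝ → (ι → ℝ) → ℝ)
    (hH : ∀ z y, z ≠ 0 → H z y = z ^ (2 * N) * p (fun i => y i / z)) (hH0 : ∀ y, H 0 y = 0)
    (hgc : Continuous (gg N H))
    {T : ℝ} (hT : 0 ≤ T) {γ : ℝ → Va ι → ℝ} (h : IsSol N H T γ) (m : ℝ) (hm : 0 ≤ m)
    (hmn : ∀ t ∈ Icc (0 : ℝ) T, m ≤ nn (γ t)) :
    √(nn (γ T)) * Real.exp (m ^ (2 * N + 3) * T) ≤ Real.exp (64 * π * (1 + Cp * 2 ^ D)) * √(nn (γ 0)) := by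
  have hhom := homog_of (by omega) hH hH0
  rcases (nn_nonneg (γ 0)).lt_or_eq with h0 | h0
  · obtain ⟨S, θ, E, hS, hθ0, hθS, hE0, hE1, -, -, hsol⟩ := toSol hgc hhom hT h h0
    have h1 := fun j => abs_div_le_one (γ 0) j h0
    have hz1 : |(γ 0 .z / √(nn (γ 0))) ^ 2| ≤ 1 := by
      rw [abs_pow]; exact pow_le_one₀ (abs_nonneg _) (h1 _)
    have hb := stable_bound p hp0 Cp hCp D N hLip hint hN H hH hH0 hsol
      (by simpa only [hθ0] using hz1) (by simpa only [hθ0] using h1 .h)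
      (by
        intro i
        simp only [hθ0]
        rw [abs_mul]
        exact mul_le_one₀ (h1 _) (abs_nonneg _) (h1 _))
      (by intro i; simpa only [hθ0] using h1 (.c i)) (by intro i; simpa only [hθ0] using h1 (.s i))
      (by simpa only [hθ0] using h1 .A) (by simpa only [hθ0] using h1 .B) S ⟨hS, le_rfl⟩
    have hw := hb.2.2.2.2.2.2.2.2.2
    simp only [hθ0, hθS, hE0, Real.exp_zero, mul_one] at hw
    rw [abs_of_nonneg (by positivity), abs_of_nonneg (Real.sqrt_nonneg _)] at hw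
    have hE := hE1 m hm hmn
    calc √(nn (γ T)) * Real.exp (m ^ (2 * N + 3) * T) ≤ √(nn (γ T)) * Real.exp (E T) := by
          apply mul_le_mul_of_nonneg_left (Real.exp_le_exp.2 hE) (Real.sqrt_nonneg _)
      _ ≤ _ := by rw [mul_comm (Real.exp _)]; exact hw
  · have hz : nn (γ T) = 0 := by
      refine lin_ode_zero (f := fun t => nn (γ t)) (a := fun t => 2 * rr N H (γ t)) ?_ (nn_deriv h) h0.symm T ⟨hT, le_rfl⟩
      have hcomp : ContinuousOn γ (Icc 0 T) := by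
        rw [continuousOn_pi]
        intro j t ht
        exact (h t ht j).continuousWithinAt
      have : Continuous (rr N H) := hgc.sub (nn_continuous.pow _)
      exact continuousOn_const.mul (this.comp_continuousOn hcomp)
    rw [hz, ← h0]
    simp

/-- explicit solution of the last equation of `Sol` -/
theorem w_explicit (p : (ι → ℝ) → ℝ) (N : ℕ) (H : ℝ → (ι → ℝ) → ℝ)
    (hH : ∀ z y, z ≠ 0 → H z y = z ^ (2 * N) * p (fun i => y i / z))
    {T : ℝ} {z h κ u v A B w : ℝ → ℝ} {y c s : ι → ℝ → ℝ}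
    (S : Sol N H T z h κ u v A B w y c s) (hz0 : z 0 ≠ 0) (bA : |A 0| ≤ 1) (bB : |B 0| ≤ 1) :
    ∀ t ∈ Icc (0 : ℝ) T, w t = w 0 * Real.exp (∫ s' in (0 : ℝ)..t,
      (z 0 ^ (2 * N) * Wf (z 0) (u 0) (v 0) (κ 0) (A 0) (B 0) s' *
        (8 * h 0 * ∑ i, (c i 0 * cos (y i 0 * s') - s i 0 * sin (y i 0 * s'))
      - 8 * ∑ i, (c i 0 ^ 2 + s i 0 ^ 2) - (2 * (Fintype.card ι : ℝ) - 1) * h 0 ^ 2)
      - 4 * (z 0 ^ (2 * N) * p (fun i => y i 0 / z 0)))) := by
  have ez := const_on S.hz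
  have eh := const_on S.hh
  have eκ := const_on S.hκ
  have ey := fun i => const_on (S.hy i)
  have euv := rotation (z := z 0) (u := u) (v := v)
    (fun t ht => by have := S.hu t ht; rwa [ez t ht] at this)
    (fun t ht => by have := S.hv t ht; rwa [ez t ht] at this)
  have ecs := fun i => rotation (z := y i 0) (u := c i) (v := s i)
    (fun t ht => by have := S.hc i t ht; rwa [ey i t ht] at this)
    (fun t ht => by have := S.hs i t ht; rwa [ey i t ht] at this)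
  set W := Wf (z 0) (u 0) (v 0) (κ 0) (A 0) (B 0) with hW
  obtain ⟨Wc, W0, W2, Wp⟩ := Wf_props (z 0) (u 0) (v 0) (κ 0) (A 0) (B 0) hz0 bA bB
  have hBW : ∀ t ∈ Icc (0 : ℝ) T, B t ^ 2 = W t := by
    have hE : ∀ t ∈ Icc (0 : ℝ) T, HasDerivWithinAt (fun t => (v t - v 0) / z 0) (u t) (Icc 0 T) t := by
      intro t ht
      refine (((S.hv t ht).sub_const (v 0)).div_const (z 0)).congr_deriv ?_
      rw [ez t ht]; field_simp
    have hU : ContinuousOn u (Icc 0 T) := fun t ht => (S.hu t ht).continuousWithinAt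
    have hA' : ∀ t ∈ Icc (0 : ℝ) T, HasDerivWithinAt A (-(κ 0 * u t * B t ^ 2)) (Icc 0 T) t := by
      intro t ht; have := S.hA t ht; rwa [eκ t ht] at this
    have hB' : ∀ t ∈ Icc (0 : ℝ) T, HasDerivWithinAt B (κ 0 * u t * A t * B t) (Icc 0 T) t := by
      intro t ht; have := S.hB t ht; rwa [eκ t ht] at this
    have hρ2 : √(A 0 ^ 2 + B 0 ^ 2) ^ 2 = A 0 ^ 2 + B 0 ^ 2 := Real.sq_sqrt (by positivity)
    have hP := (pulse (ρ := √(A 0 ^ 2 + B 0 ^ 2)) hρ2 hA' hB' hE (by simp) hU).2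
    intro t ht
    by_cases hB0 : B 0 = 0
    · have : B t = 0 := by
        refine lin_ode_zero (a := fun t => κ 0 * u t * A t) ?_ hB' hB0 t ht
        exact (continuousOn_const.mul hU).mul (fun t ht => (S.hA t ht).continuousWithinAt)
      rw [this, hW]; simp [Wf, hB0]
    · have h1 := hP t ht
      have h2 := (euv t ht).2
      rw [hW]
      unfold Wf
      simp only [hB0, if_false]
      rw [← h2]
      set Dv := √(A 0 ^ 2 + B 0 ^ 2) * cosh (κ 0 * √(A 0 ^ 2 + B 0 ^ 2) * ((v t - v 0) / z 0)) -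
        A 0 * sinh (κ 0 * √(A 0 ^ 2 + B 0 ^ 2) * ((v t - v 0) / z 0)) with hDv
      have hD := D_sq (√(A 0 ^ 2 + B 0 ^ 2)) (A 0) (B 0) (κ 0 * √(A 0 ^ 2 + B 0 ^ 2) * ((v t - v 0) / z 0)) hρ2
      rw [← hDv] at hD
      have hDne : Dv ≠ 0 := by
        intro h0; rw [h0] at hD
        have : 0 < B 0 ^ 2 := by positivity
        nlinarith
      rw [← h1]
      field_simp
  have hwode : ∀ t ∈ Icc (0 : ℝ) T, HasDerivWithinAt w
      ((fun s' => (z 0 ^ (2 * N) * W s' * (8 * h 0 * ∑ i, (c i 0 * cos (y i 0 * s') - s i 0 * sin (y i 0 * s'))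
  - 8 * ∑ i, (c i 0 ^ 2 + s i 0 ^ 2) - (2 * (Fintype.card ι : ℝ) - 1) * h 0 ^ 2)
  - 4 * (z 0 ^ (2 * N) * p (fun i => y i 0 / z 0)))) t * w t) (Icc 0 T) t := by
    intro t ht
    refine (S.hw t ht).congr_deriv ?_
    simp only
    rw [ez t ht, eh t ht, hBW t ht, hH _ _ hz0]
    have e1 : ∑ i, c i t = ∑ i, (c i 0 * cos (y i 0 * t) - s i 0 * sin (y i 0 * t)) :=
      Finset.sum_congr rfl fun i _ => (ecs i t ht).1
    have e2 : ∑ i, (c i t ^ 2 + s i t ^ 2) = ∑ i, (c i 0 ^ 2 + s i 0 ^ 2) := by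
      apply Finset.sum_congr rfl
      intro i _
      rw [(ecs i t ht).1, (ecs i t ht).2]
      have h1 := sin_sq_add_cos_sq (y i 0 * t)
      linear_combination (c i 0 ^ 2 + s i 0 ^ 2) * h1
    rw [e1, e2]
    have e3 : (fun i => y i t / z 0) = (fun i => y i 0 / z 0) := by
      funext i; rw [ey i t ht]
    rw [e3]
  intro t ht
  exact lin_ode (by fun_prop) hwode t ht

end Pool.Agent.H761R3.Arn
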