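import Mathlib
import Pool.Agent.H761R3.Arn.Stable
import Pool.Agent.Helper702.OdeE

set_option autoImplicit false

namespace Pool.Agent.H761R3.Arn

open Set Real Filter Topology
open Pool.Agent.Helper702 (Sol Wf peak)

variable {ι : Type} [Fintype ι]

/-- the primitive of a periodic function grows at least like its mean -/
theorem periodic_lower {a : ℝ → ℝ} (ha : Continuous a) {P : ℝ} (hP : 0 < P)
    (hp : Function.Periodic a P) :
    ∃ C : ℝ, ∀ t, ((∫ s in (0 : ℝ)..P, a s) / P) * t - C ≤ ∫ s in (0 : ℝ)..t, a s := by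
  set R := ∫ s in (0 : ℝ)..P, a s with hR
  set F : ℝ → ℝ := fun t => (∫ s in (0 : ℝ)..t, a s) - (R / P) * t with hF
  have hFc : Continuous F := by
    have h1 : Continuous (fun t => ∫ s in (0 : ℝ)..t, a s) :=
      continuous_iff_continuousAt.2 fun t => (ha.integral_hasStrictDerivAt 0 t).hasDerivAt.continuousAt
    exact h1.sub (continuous_const.mul continuous_id)
  have hFp : Function.Periodic F P := by
    intro t
    have h1 : ∫ s in (0 : ℝ)..(t + P), a s = (∫ s in (0 : ℝ)..t, a s) + R := by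
      rw [← intervalIntegral.integral_add_adjacent_intervals (ha.intervalIntegrable 0 t)
        (ha.intervalIntegrable t (t + P))]
      congr 1
      have := hp.intervalIntegral_add_eq t 0
      rw [this, zero_add]
    simp only [hF]
    rw [h1]
    field_simp
    ring
  obtain ⟨C, hC⟩ := isCompact_Icc (a := (0 : ℝ)) (b := P) |>.exists_bound_of_continuousOn hFc.continuousOn
  refine ⟨C, fun t => ?_⟩
  obtain ⟨r, hr, hrt⟩ := hFp.exists_mem_Ico₀ hP t
  have h1 := hC r ⟨hr.1, hr.2.le⟩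
  rw [← hrt, Real.norm_eq_abs] at h1
  have h2 := (abs_le.1 h1).1
  simp only [hF] at h2
  linarith

theorem key_unstable (p : (ι → ℝ) → ℝ) (N : ℕ) (hN : 0 < N) (H : ℝ → (ι → ℝ) → ℝ)
    (hH : ∀ z y, z ≠ 0 → H z y = z ^ (2 * N) * p (fun i => y i / z)) (hH0 : ∀ y, H 0 y = 0)
    (hgc : Continuous (gg N H))
    (n : ι → ℤ) (hn : p (fun i => (n i : ℝ)) = 0) :
    ∃ (X : Va ι → ℝ) (ε : ℝ), nn X = 1 ∧ 0 < ε ∧ ∀ r : ℝ, 0 < r → ∃ T : ℝ, 0 ≤ T ∧
      ∀ γ : ℝ → Va ι → ℝ, IsSol N H T γ → γ 0 = (fun j => r * X j) →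
        ∃ t ∈ Icc (0 : ℝ) T, ε < nn (γ t) := by
  have hpi := Real.pi_pos
  have hhom := homog_of hN hH hH0
  set Γ : ℝ → ℝ := fun θ => 4 * ∑ i, cos (n i * θ) - 4 * (Fintype.card ι : ℝ) + 1 with hΓ
  have hΓc : Continuous Γ := by simp only [hΓ]; fun_prop
  have hΓp : ∀ θ, Γ (θ + 2 * π) = Γ θ := by
    intro θ
    simp only [hΓ]
    congr 3
    apply Finset.sum_congr rfl
    intro i _
    have : (n i : ℝ) * (θ + 2 * π) = n i * θ + n i * (2 * π) := by ring
    rw [this, Real.cos_add_int_mul_two_pi]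
  have hΓ0 : 0 < Γ 0 := by
    simp only [hΓ]; simp
  obtain ⟨K0, hK0, hK⟩ := peak Γ hΓc hΓp hΓ0
  -- the size of the harmless coordinates
  set k : ℝ := (Fintype.card ι : ℝ) with hk
  have hk0 : 0 ≤ k := by positivity
  set η : ℝ := √(1 / (4 * (3 + k / 4))) with hη
  have hηpos : 0 < η := Real.sqrt_pos.2 (by positivity)
  have hη2 : η ^ 2 * (3 + k / 4) = 1 / 4 := by
    rw [hη, Real.sq_sqrt (by positivity)]
    field_simp
  -- the small frequency
  set S1 : ℝ := 1 + ∑ i, (n i : ℝ) ^ 2 with hS1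
  have hS1pos : 1 ≤ S1 := by
    have : 0 ≤ ∑ i, (n i : ℝ) ^ 2 := Finset.sum_nonneg fun i _ => sq_nonneg _
    linarith
  set ζ : ℝ := min (1 / (4 * S1)) (η ^ 2 / (2 * K0)) with hζ
  have hζpos : 0 < ζ := lt_min (by positivity) (by positivity)
  have hζ1 : ζ * S1 ≤ 1 / 4 := by
    have h1 : ζ ≤ 1 / (4 * S1) := min_le_left _ _
    rw [le_div_iff₀ (by positivity)] at h1
    linarith
  set κ0 : ℝ := 1 - 1 / 4 - ζ * S1 with hκ0
  have hκh : 1 / 2 ≤ κ0 := by rw [hκ0]; linarith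
  have hκpos : 0 < κ0 := by linarith
  set K : ℝ := κ0 * η ^ 2 / ζ with hKdef
  have hKK : K0 ≤ K := by
    have h1 : ζ ≤ η ^ 2 / (2 * K0) := min_le_right _ _
    rw [le_div_iff₀ (by positivity)] at h1
    rw [hKdef, le_div_iff₀ hζpos]
    nlinarith [sq_nonneg η]
  have hKint := hK K hKK
  -- the initial vector
  set X : Va ι → ℝ := fun j => match j with
    | .z => √ζ | .h => η | .κ => √κ0 | .u => 0 | .v => -η | .A => 0 | .B => η
    | .y i => n i * √ζ | .c _ => η / 2 | .s _ => 0 with hX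
  have hsζ : √ζ ^ 2 = ζ := Real.sq_sqrt hζpos.le
  have hsκ : √κ0 ^ 2 = κ0 := Real.sq_sqrt hκpos.le
  have hnX : nn X = 1 := by
    unfold nn
    simp only [hX]
    have e1 : ∑ i, (((n i : ℝ) * √ζ) ^ 2 + (η / 2) ^ 2 + (0 : ℝ) ^ 2) = ζ * (∑ i, (n i : ℝ) ^ 2) + k * (η ^ 2 / 4) := by
      rw [hk, ← nsmul_eq_mul, ← Finset.card_univ, ← Finset.sum_const, Finset.mul_sum, ← Finset.sum_add_distrib]
      apply Finset.sum_congr rfl
      intro i _
      rw [mul_pow, hsζ]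
      ring
    rw [e1, hsζ, hsκ]
    have e2 : ζ * (∑ i, (n i : ℝ) ^ 2) = ζ * S1 - ζ := by rw [hS1]; ring
    rw [e2, hκ0]
    linear_combination hη2
  -- the growth rate
  set a : ℝ → ℝ := fun t => ζ ^ (2 * N) * Wf ζ 0 (-η) κ0 0 η t *
        (8 * η * ∑ i, ((η / 2) * cos (n i * ζ * t) - 0 * sin (n i * ζ * t))
      - 8 * ∑ _i : ι, ((η / 2) ^ 2 + (0 : ℝ) ^ 2) - (2 * (Fintype.card ι : ℝ) - 1) * η ^ 2)
      - 4 * (ζ ^ (2 * N) * p (fun i => n i * ζ / ζ)) with ha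
  have hW : ∀ t, Wf ζ 0 (-η) κ0 0 η t = η ^ 2 / cosh (K * (1 - cos (ζ * t))) ^ 2 := by
    intro t
    unfold Wf
    rw [if_neg hηpos.ne']
    have e0 : √((0 : ℝ) ^ 2 + η ^ 2) = η := by
      rw [show (0 : ℝ) ^ 2 + η ^ 2 = η ^ 2 by ring, Real.sqrt_sq hηpos.le]
    rw [e0]
    have e1 : κ0 * η * ((0 * sin (ζ * t) + -η * cos (ζ * t) - -η) / ζ) = K * (1 - cos (ζ * t)) := by
      rw [hKdef]; field_simp; ring
    rw [e1]
    have hc := (Real.cosh_pos (K * (1 - cos (ζ * t)))).ne'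
    field_simp
    ring
  have haΓ : ∀ t, a t = ζ ^ (2 * N) * η ^ 4 * (Γ (ζ * t) / cosh (K * (1 - cos (ζ * t))) ^ 2) := by
    intro t
    simp only [ha]
    rw [hW]
    have e0 : (fun i => (n i : ℝ) * ζ / ζ) = fun i => (n i : ℝ) := by
      funext i; field_simp
    rw [e0, hn]
    have e1 : ∑ _i : ι, ((η / 2) ^ 2 + (0 : ℝ) ^ 2) = (Fintype.card ι : ℝ) * (η ^ 2 / 4) := by
      rw [Finset.sum_const, Finset.card_univ, nsmul_eq_mul]
      ring
    have e2 : ∑ i, ((η / 2) * cos (n i * ζ * t) - 0 * sin (n i * ζ * t)) = (η / 2) * ∑ i, cos (n i * (ζ * t)) := by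
      rw [Finset.mul_sum]
      apply Finset.sum_congr rfl
      intro i _
      rw [zero_mul, sub_zero, mul_assoc]
    rw [e1, e2]
    have hc := (Real.cosh_pos (K * (1 - cos (ζ * t)))).ne'
    simp only [hΓ]
    field_simp
    ring
  have hac : Continuous a := by
    have : a = fun t => ζ ^ (2 * N) * η ^ 4 * (Γ (ζ * t) / cosh (K * (1 - cos (ζ * t))) ^ 2) := funext haΓ
    rw [this]
    refine continuous_const.mul (Continuous.div (hΓc.comp (by fun_prop)) ?_ ?_)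
    · exact (Real.continuous_cosh.comp (by fun_prop)).pow 2
    · intro t
      have := Real.cosh_pos (K * (1 - cos (ζ * t)))
      positivity
  set P : ℝ := 2 * π / ζ with hP
  have hPpos : 0 < P := by positivity
  have hap : Function.Periodic a P := by
    intro t
    rw [haΓ, haΓ]
    have : ζ * (t + P) = ζ * t + 2 * π := by rw [hP]; field_simp
    rw [this, hΓp, Real.cos_add_two_pi]
  have hrpos : 0 < ∫ s in (0 : ℝ)..P, a s := by
    have h1 : ∫ s in (0 : ℝ)..P, a s = ζ ^ (2 * N) * η ^ 4 * (ζ⁻¹ * ∫ θ in (0 : ℝ)..(2 * π), Γ θ / cosh (K * (1 - cos θ)) ^ 2) := by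
      have h2 : ∫ s in (0 : ℝ)..P, a s = ∫ s in (0 : ℝ)..P, ζ ^ (2 * N) * η ^ 4 * (Γ (ζ * s) / cosh (K * (1 - cos (ζ * s))) ^ 2) := by
        apply intervalIntegral.integral_congr
        intro s _
        exact haΓ s
      rw [h2, intervalIntegral.integral_const_mul]
      congr 1
      have h3 := intervalIntegral.integral_comp_mul_left (a := 0) (b := P)
        (fun θ => Γ θ / cosh (K * (1 - cos θ)) ^ 2) hζpos.ne'
      rw [h3]
      have : ζ * P = 2 * π := by rw [hP]; field_simp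
      rw [this, mul_zero, smul_eq_mul]
    rw [h1]
    positivity
  obtain ⟨C, hC⟩ := periodic_lower hac hPpos hap
  set lam : ℝ := (∫ s in (0 : ℝ)..P, a s) / P with hlam
  have hlampos : 0 < lam := by positivity
  -- lower bound for the norm
  have hlow : ∀ (r : ℝ), 0 < r → ∀ (T : ℝ), 0 ≤ T → ∀ γ : ℝ → Va ι → ℝ, IsSol N H T γ →
      γ 0 = (fun j => r * X j) → (∀ t ∈ Icc (0 : ℝ) T, nn (γ t) ≤ lam / 2) →
      ∀ m : ℝ, 0 ≤ m → (∀ t ∈ Icc (0 : ℝ) T, m ≤ nn (γ t)) →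
      r * Real.exp (lam / 2 * (m ^ (2 * N + 2) * T) - C) ≤ √(nn (γ T)) := by
    intro r hr T hT γ hγ hγ0 hle m hm hmn
    have hn0 : nn (γ 0) = r ^ 2 := by
      rw [hγ0]
      have : nn (fun j => r * X j) = r ^ 2 * nn X := by
        unfold nn
        have : ∑ i, ((r * X (.y i)) ^ 2 + (r * X (.c i)) ^ 2 + (r * X (.s i)) ^ 2) =
            r ^ 2 * ∑ i, (X (.y i) ^ 2 + X (.c i) ^ 2 + X (.s i) ^ 2) := by
          rw [Finset.mul_sum]
          apply Finset.sum_congr rfl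
          intro i _
          ring
        rw [this]
        ring
      rw [this, hnX, mul_one]
    have hsq : √(nn (γ 0)) = r := by rw [hn0, Real.sqrt_sq hr.le]
    obtain ⟨S, θ, E, hS, hθ0, hθS, hE0, -, hE2, hE3, hsol⟩ :=
      toSol hgc hhom hT hγ (by rw [hn0]; positivity)
    have hval : ∀ j, γ (θ 0) j / √(nn (γ (θ 0))) = X j := by
      intro j
      rw [hθ0, hsq, hγ0]
      field_simp
    have hηle : |η| ≤ 1 := by
      rw [abs_of_pos hηpos]
      nlinarith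
    have hw := w_explicit p N H hH hsol (by rw [hval]; simp only [hX]; rw [hsζ]; exact hζpos.ne')
      (by rw [hval]; simp [hX]) (by rw [hval]; exact hηle) S ⟨hS, le_rfl⟩
    have hzy : ∀ i, √ζ * ((n i : ℝ) * √ζ) = n i * ζ := by
      intro i
      calc √ζ * ((n i : ℝ) * √ζ) = n i * √ζ ^ 2 := by ring
        _ = _ := by rw [hsζ]
    simp only [hval] at hw
    simp only [hX, hsζ, hsκ, hzy] at hw
    rw [hθ0, hθS, hE0, hsq, Real.exp_zero, mul_one] at hw
    have hint := hC S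
    have hES := hE3 (lam / 2) hle
    have hSm := hE2 m hm hmn
    have hexp : √(nn (γ T)) = r * Real.exp ((∫ s in (0 : ℝ)..S, a s) - E T) := by
      rw [Real.exp_sub, ← mul_div_assoc, ← hw, mul_div_assoc, div_self (Real.exp_pos _).ne', mul_one]
    rw [hexp]
    apply mul_le_mul_of_nonneg_left _ hr.le
    apply Real.exp_le_exp.2
    nlinarith
  refine ⟨X, lam / 2, hnX, by positivity, fun r hr => ?_⟩
  set ρ : ℝ := r * Real.exp (-C) with hρ
  have hρpos : 0 < ρ := by positivity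
  set c : ℝ := lam / 2 * ((ρ ^ 2) ^ (2 * N + 2)) with hc
  have hcpos : 0 < c := by positivity
  set T : ℝ := (√(lam / 2) / ρ) / c with hT
  have hT0 : 0 ≤ T := by positivity
  refine ⟨T, hT0, fun γ hγ hγ0 => ?_⟩
  by_contra hcon
  push Not at hcon
  have hm : ∀ t ∈ Icc (0 : ℝ) T, ρ ^ 2 ≤ nn (γ t) := by
    intro t ht
    have h1 := hlow r hr t ht.1 γ (hγ.mono ht.2) hγ0 (fun s hs => hcon s ⟨hs.1, hs.2.trans ht.2⟩) 0 le_rfl
      (fun s _ => nn_nonneg _)
    have h2 : ρ ≤ √(nn (γ t)) := by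
      refine le_trans (le_of_eq ?_) h1
      rw [hρ]; simp
    calc ρ ^ 2 ≤ √(nn (γ t)) ^ 2 := pow_le_pow_left₀ hρpos.le h2 2
      _ = nn (γ t) := Real.sq_sqrt (nn_nonneg _)
  have h1 := hlow r hr T hT0 γ hγ hγ0 hcon (ρ ^ 2) (by positivity) hm
  have h2 : √(nn (γ T)) ≤ √(lam / 2) := Real.sqrt_le_sqrt (hcon T ⟨hT0, le_rfl⟩)
  have h3 : r * Real.exp (lam / 2 * ((ρ ^ 2) ^ (2 * N + 2) * T) - C) = ρ * Real.exp (c * T) := by
    rw [hρ, hc, mul_assoc, ← Real.exp_add]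
    congr 2
    ring
  rw [h3] at h1
  have h4 : c * T = √(lam / 2) / ρ := by rw [hT]; field_simp
  have h5 : √(lam / 2) / ρ + 1 ≤ Real.exp (c * T) := by
    rw [h4]; exact Real.add_one_le_exp _
  have h6 : ρ * (√(lam / 2) / ρ + 1) ≤ √(lam / 2) := by
    calc _ ≤ ρ * Real.exp (c * T) := by gcongr
      _ ≤ _ := h1.trans h2
  have h7 : ρ * (√(lam / 2) / ρ + 1) = √(lam / 2) + ρ := by field_simp
  linarith

end Pool.Agent.H761R3.Arn
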