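import Mathlib
import Pool.Agent.Helper702.PolyA
import Pool.Agent.H761R3.Arn.Defs
import Pool.Agent.H761R3.Arn.Exist
import Pool.Agent.H761R3.Arn.Unstable

set_option autoImplicit false

namespace Pool.Agent.H761R3.Arn

open MvPolynomial Set Filter Topology
open Pool.Agent.Helper702 (hom hom_eq hom_zero re_mv mv_lip)

/-- the underlying sum type -/
def Va.toSum {ι : Type} : Va ι → Fin 7 ⊕ (ι ⊕ (ι ⊕ ι))
  | .z => Sum.inl 0 | .h => Sum.inl 1 | .κ => Sum.inl 2 | .u => Sum.inl 3 | .v => Sum.inl 4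
  | .A => Sum.inl 5 | .B => Sum.inl 6
  | .y i => Sum.inr (Sum.inl i) | .c i => Sum.inr (Sum.inr (Sum.inl i))
  | .s i => Sum.inr (Sum.inr (Sum.inr i))

theorem Va.toSum_injective {ι : Type} : Function.Injective (Va.toSum (ι := ι)) := by
  intro a b hab
  cases a <;> cases b <;> simp_all [Va.toSum]

noncomputable instance (k : ℕ) : Fintype (Va (Fin k)) := Fintype.ofInjective _ Va.toSum_injective

variable {k : ℕ}

/-- squared norm as a polynomial -/
noncomputable def nnP (k : ℕ) : MvPolynomial (Va (Fin k)) ℤ :=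
  X .z ^ 2 + X .h ^ 2 + X .κ ^ 2 + X .u ^ 2 + X .v ^ 2 + X .A ^ 2 + X .B ^ 2
    + ∑ i, (X (.y i) ^ 2 + X (.c i) ^ 2 + X (.s i) ^ 2)

theorem nnP_eval (x : Va (Fin k) → ℝ) : aeval x (nnP k) = nn x := by
  simp [nnP, nn]

/-- homogenised polynomial in the state variables -/
noncomputable def homP (M : ℕ) (q : MvPolynomial (Fin k) ℤ) : MvPolynomial (Va (Fin k)) ℤ :=
  ∑ m ∈ q.support, C (coeff m q) * ((X Va.z ^ 2) ^ (M - m.degree) * ∏ i, (X Va.z * X (Va.y i)) ^ (m i))

theorem homP_eval (M : ℕ) (q : MvPolynomial (Fin k) ℤ) (x : Va (Fin k) → ℝ) :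
    aeval x (homP M q) = hom M q (x .z ^ 2) (fun i => x .z * x (.y i)) := by
  unfold homP hom
  simp [map_sum, map_mul, map_prod, map_pow]

/-- tangential part -/
noncomputable def tangP (N : ℕ) : Va (Fin k) → MvPolynomial (Va (Fin k)) ℤ
  | .z => 0 | .h => 0 | .κ => 0 | .y _ => 0
  | .u => -(X .z ^ 2 * X .v) * nnP k ^ (2 * N + 1)
  | .v => (X .z ^ 2 * X .u) * nnP k ^ (2 * N + 1)
  | .c i => -(X .z * X (.y i) * X (.s i)) * nnP k ^ (2 * N + 1)
  | .s i => (X .z * X (.y i) * X (.c i)) * nnP k ^ (2 * N + 1)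
  | .A => -(X .κ ^ 2 * X .u * X .B ^ 2) * nnP k ^ (2 * N)
  | .B => (X .κ ^ 2 * X .u * X .A * X .B) * nnP k ^ (2 * N)

theorem tangP_eval (N : ℕ) (x : Va (Fin k) → ℝ) (j : Va (Fin k)) : aeval x (tangP N j) = tang N x j := by
  cases j <;> simp [tangP, tang, nnP_eval]

/-- the part of the field that does not depend on the instance -/
noncomputable def G0 (N : ℕ) (p : MvPolynomial (Fin k) ℤ) (j : Va (Fin k)) : MvPolynomial (Va (Fin k)) ℤ :=
  tangP N j + ((X .z ^ 2) ^ (2 * N) * X .B ^ 2 * (8 * X .h * (∑ i, X (.c i)) -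
      8 * (∑ i, (X (.c i) ^ 2 + X (.s i) ^ 2)) - (2 * (k : MvPolynomial (Va (Fin k)) ℤ) - 1) * X .h ^ 2)
      - 4 * homP (2 * N) p * nnP k ^ 2 - nnP k ^ (2 * N + 3)) * X j

/-- the parts proportional to the instance and its square -/
noncomputable def G1 (N : ℕ) (p : MvPolynomial (Fin k) ℤ) (j : Va (Fin k)) : MvPolynomial (Va (Fin k)) ℤ :=
  -(4 * homP (2 * N) p * nnP k ^ 2) * X j

theorem G0_const (N : ℕ) (p : MvPolynomial (Fin k) ℤ) (j : Va (Fin k)) : constantCoeff (G0 N p j) = 0 := by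
  cases j <;> simp [G0, tangP]

theorem G1_const (N : ℕ) (p : MvPolynomial (Fin k) ℤ) (j : Va (Fin k)) : constantCoeff (G1 N p j) = 0 := by
  simp [G1]

theorem fld_eval (N : ℕ) (p0 p1 p2 : MvPolynomial (Fin k) ℤ) (a : ℝ) (x : Va (Fin k) → ℝ) (j : Va (Fin k)) :
    aeval x (G0 N p0 j) + a * aeval x (G1 N p1 j) + a ^ 2 * aeval x (G1 N p2 j) =
      fld N (fun z y => hom (2 * N) p0 z y + a * hom (2 * N) p1 z y + a ^ 2 * hom (2 * N) p2 z y) x j := by
  simp only [G0, G1, fld, rr, gg, map_add, map_sub, map_mul, map_neg, map_pow, map_sum, aeval_X,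
    tangP_eval, nnP_eval, homP_eval, map_ofNat, map_natCast, map_one, Fintype.card_fin]
  ring

/-- the coded instance attached to `a` -/
def La (T0 T1 T2 : List Term) (a : ℕ) : List Term :=
  T0 ++ ((List.range a).flatMap (fun _ => T1) ++ (List.range (a * a)).flatMap (fun _ => T2))

theorem La_computable (T0 T1 T2 : List Term) : Computable (La T0 T1 T2) := by
  apply Primrec.to_comp
  unfold La
  refine Primrec.list_append.comp (Primrec.const _) (Primrec.list_append.comp ?_ ?_)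
  · exact Primrec.list_flatMap Primrec.list_range (Primrec.const T1).to₂
  · exact Primrec.list_flatMap (Primrec.list_range.comp (Primrec.nat_mul.comp Primrec.id Primrec.id))
      (Primrec.const T2).to₂

theorem field_La (n : ℕ) (T0 T1 T2 : List Term) (a : ℕ) (i : Fin n) :
    field n (La T0 T1 T2 a) i = field n T0 i + (a : MvPolynomial (Fin n) ℚ) * field n T1 i
      + ((a * a : ℕ) : MvPolynomial (Fin n) ℚ) * field n T2 i := by
  unfold La
  rw [field_append, field_append, field_rep, field_rep, add_assoc]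

theorem nn_le (x : Va (Fin k) → ℝ) (R : ℝ) (h : ∀ j, |x j| ≤ R) : nn x ≤ (7 + 3 * (k : ℝ)) * R ^ 2 := by
  have h2 : ∀ j, x j ^ 2 ≤ R ^ 2 := by
    intro j
    rw [← sq_abs]
    exact pow_le_pow_left₀ (abs_nonneg _) (h j) 2
  unfold nn
  have hs : ∑ i : Fin k, (x (.y i) ^ 2 + x (.c i) ^ 2 + x (.s i) ^ 2) ≤ ∑ _i : Fin k, 3 * R ^ 2 := by
    apply Finset.sum_le_sum
    intro i _
    have := h2 (.y i); have := h2 (.c i); have := h2 (.s i)
    linarith
  rw [Finset.sum_const, Finset.card_univ, Fintype.card_fin, nsmul_eq_mul] at hs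
  have := h2 .z; have := h2 .h; have := h2 .κ; have := h2 .u; have := h2 .v; have := h2 .A; have := h2 .B
  linarith

/-- **Main reduction.** -/
theorem reduction {P : ℕ → Prop} (hP : REPred P) :
    ∃ (n d : ℕ) (T0 T1 T2 : List Term), ∀ a : ℕ, Valid n d (La T0 T1 T2 a) ∧
      (¬ P a → GlobAsympStable (field n (La T0 T1 T2 a))) ∧
      (P a → ¬ LyapStable (field n (La T0 T1 T2 a))) := by
  classical
  obtain ⟨k, p0, p1, p2, hnn, hPk⟩ := re_mv hP
  obtain ⟨C0, D0, hC0, -, l0⟩ := mv_lip p0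
  obtain ⟨C1, D1, hC1, -, l1⟩ := mv_lip p1
  obtain ⟨C2, D2, hC2, -, l2⟩ := mv_lip p2
  set D := D0 + D1 + D2 with hD
  set N := D + p0.totalDegree + p1.totalDegree + p2.totalDegree + 1 with hN
  set n := Fintype.card (Va (Fin k)) with hn
  set e : Va (Fin k) ≃ Fin n := Fintype.equivFin (Va (Fin k)) with he
  set T0 := termsOf e (G0 N p0) with hT0
  set T1 := termsOf e (G1 N p1) with hT1
  set T2 := termsOf e (G1 N p2) with hT2
  set d := (∑ i : Fin n, (field n T0 i).totalDegree) + (∑ i : Fin n, (field n T1 i).totalDegree)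
    + (∑ i : Fin n, (field n T2 i).totalDegree) with hd
  refine ⟨n, d, T0, T1, T2, fun a => ?_⟩
  have hsurj : ∀ i : Fin n, ∃ j, e j = i := fun i => e.surjective i
  -- the coded polynomials
  have f0 : ∀ j, field n T0 (e j) = rename e (map (Int.castRingHom ℚ) (G0 N p0 j)) := fun j => field_termsOf e _ j
  have f1 : ∀ j, field n T1 (e j) = rename e (map (Int.castRingHom ℚ) (G1 N p1 j)) := fun j => field_termsOf e _ j
  have f2 : ∀ j, field n T2 (e j) = rename e (map (Int.castRingHom ℚ) (G1 N p2 j)) := fun j => field_termsOf e _ j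
  have hev : ∀ (q : MvPolynomial (Va (Fin k)) ℤ) (x : Fin n → ℝ),
      aeval x (rename e (map (Int.castRingHom ℚ) q)) = aeval (fun j => x (e j)) q := by
    intro q x
    rw [aeval_rename]
    have : aeval (x ∘ e) (map (Int.castRingHom ℚ) q) = aeval (x ∘ e) q := by
      have := aeval_map_algebraMap (A := ℚ) (x ∘ e) q
      simpa using this
    rw [this]
    rfl
  set p : (Fin k → ℝ) → ℝ := fun x => aeval x p0 + a * aeval x p1 + (a : ℝ) ^ 2 * aeval x p2 with hp
  set H : ℝ → (Fin k → ℝ) → ℝ := fun z y => hom (2 * N) p0 z y + a * hom (2 * N) p1 z y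
    + (a : ℝ) ^ 2 * hom (2 * N) p2 z y with hH
  have hfld : ∀ (x : Fin n → ℝ) (j : Va (Fin k)),
      aeval x (field n (La T0 T1 T2 a) (e j)) = fld N H (fun j => x (e j)) j := by
    intro x j
    rw [field_La, f0, f1, f2, map_add, map_add, map_mul, map_mul, hev, hev, hev, map_natCast, map_natCast,
      hH, ← fld_eval N p0 p1 p2 (a : ℝ)]
    push_cast
    ring
  have hHne : ∀ z y, z ≠ 0 → H z y = z ^ (2 * N) * p (fun i => y i / z) := by
    intro z y hz
    simp only [hH, hp]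
    rw [hom_eq _ p0 (by omega) z y hz, hom_eq _ p1 (by omega) z y hz, hom_eq _ p2 (by omega) z y hz]
    ring
  have hH0 : ∀ y, H 0 y = 0 := by
    intro y
    simp only [hH]
    rw [hom_zero _ p0 (by omega), hom_zero _ p1 (by omega), hom_zero _ p2 (by omega)]
    ring
  have hgc : Continuous (gg N H) := by
    unfold gg
    have hc : Continuous fun x : Va (Fin k) → ℝ => H (x .z ^ 2) (fun i => x .z * x (.y i)) := by
      simp only [hH, hom]
      fun_prop
    refine Continuous.sub ?_ ((continuous_const.mul hc).mul ((nn_continuous (ι := Fin k)).pow 2))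
    fun_prop
  have hcast : ∀ n : Fin k → ℤ, p (fun i => (n i : ℝ)) =
      ((aeval n p0 + a * aeval n p1 + (a : ℤ) ^ 2 * aeval n p2 : ℤ) : ℝ) := by
    intro n
    have h1 : ∀ q : MvPolynomial (Fin k) ℤ, aeval (fun i => (n i : ℝ)) q = ((aeval n q : ℤ) : ℝ) := by
      intro q
      exact aeval_algebraMap_apply ℝ n q
    simp only [hp, h1]
    push_cast
    ring
  -- norms
  have hsq : ∀ x : Fin n → ℝ, ‖x‖ ^ 2 ≤ nn (fun j => x (e j)) := by
    intro x
    have h0 := nn_nonneg (fun j => x (e j))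
    have h1 : ‖x‖ ≤ √(nn (fun j => x (e j))) := by
      rw [pi_norm_le_iff_of_nonneg (Real.sqrt_nonneg _)]
      intro i
      obtain ⟨j, rfl⟩ := hsurj i
      rw [Real.norm_eq_abs]
      exact Real.abs_le_sqrt (sq_le_nn (fun j => x (e j)) j)
    calc ‖x‖ ^ 2 ≤ √(nn (fun j => x (e j))) ^ 2 := pow_le_pow_left₀ (norm_nonneg _) h1 2
      _ = _ := Real.sq_sqrt h0
  have hsq2 : ∀ x : Fin n → ℝ, nn (fun j => x (e j)) ≤ (7 + 3 * (k : ℝ)) * ‖x‖ ^ 2 := by
    intro x
    apply nn_le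
    intro j
    have := norm_le_pi_norm x (e j)
    rwa [Real.norm_eq_abs] at this
  have hBpos : (0 : ℝ) < 7 + 3 * (k : ℝ) := by positivity
  set F : (Fin n → ℝ) → Fin n → ℝ := fun x i => aeval x (field n (La T0 T1 T2 a) i) with hF
  have hFc : ContDiff ℝ 1 F := by
    rw [contDiff_pi]
    intro i
    exact contDiff_aeval _
  have htoSol : ∀ (T : ℝ) (γ : ℝ → Fin n → ℝ), SolOn F T γ → IsSol N H T (fun t j => γ t (e j)) := by
    intro T γ hγ t ht j
    have h1 := (hasDerivWithinAt_pi.1 (hγ t ht)) (e j)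
    simp only [hF] at h1
    rw [hfld] at h1
    exact h1
  refine ⟨?_, ?_, ?_⟩
  · -- validity
    intro i
    obtain ⟨j, rfl⟩ := hsurj i
    constructor
    · rw [field_La]
      have g0 : (field n T0 (e j)).totalDegree ≤ d := by
        have := Finset.single_le_sum (f := fun i => (field n T0 i).totalDegree) (fun _ _ => Nat.zero_le _) (Finset.mem_univ (e j))
        omega
      have g1 : (field n T1 (e j)).totalDegree ≤ d := by
        have := Finset.single_le_sum (f := fun i => (field n T1 i).totalDegree) (fun _ _ => Nat.zero_le _) (Finset.mem_univ (e j))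
        omega
      have g2 : (field n T2 (e j)).totalDegree ≤ d := by
        have := Finset.single_le_sum (f := fun i => (field n T2 i).totalDegree) (fun _ _ => Nat.zero_le _) (Finset.mem_univ (e j))
        omega
      have hmul : ∀ (b : ℕ) (q : MvPolynomial (Fin n) ℚ), ((b : MvPolynomial (Fin n) ℚ) * q).totalDegree ≤ q.totalDegree := by
        intro b q
        refine (totalDegree_mul _ _).trans ?_
        have : (b : MvPolynomial (Fin n) ℚ) = C (b : ℚ) := by simp
        rw [this, totalDegree_C, zero_add]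
      refine (totalDegree_add _ _).trans (max_le ((totalDegree_add _ _).trans (max_le g0 ?_)) ?_)
      · exact (hmul _ _).trans g1
      · exact (hmul _ _).trans g2
    · rw [field_La, f0, f1, f2]
      simp only [map_add, map_mul, constantCoeff_rename, constantCoeff_map, G0_const, G1_const]
      simp
  · -- not P implies globally asymptotically stable
    intro hPa
    have hp0 : ∀ x, 0 ≤ p x := fun x => hnn a x
    have hint : ∀ n : Fin k → ℤ, 1 ≤ p (fun i => (n i : ℝ)) := by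
      intro n
      have h1 := hp0 (fun i => (n i : ℝ))
      rw [hcast] at h1 ⊢
      have h2 : (0 : ℤ) ≤ aeval n p0 + a * aeval n p1 + (a : ℤ) ^ 2 * aeval n p2 := by exact_mod_cast h1
      have h3 : aeval n p0 + a * aeval n p1 + (a : ℤ) ^ 2 * aeval n p2 ≠ 0 := fun h0 =>
        hPa ((hPk a).2 ⟨n, h0⟩)
      have h4 : (1 : ℤ) ≤ aeval n p0 + a * aeval n p1 + (a : ℤ) ^ 2 * aeval n p2 := by omega
      exact_mod_cast h4
    set Cp := C0 + a * C1 + (a : ℝ) ^ 2 * C2 with hCp
    have hCpos : 0 < Cp := by positivity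
    have hLip : ∀ (x : Fin k → ℝ) (n : Fin k → ℤ), (∀ i, |x i - n i| ≤ 1 / 2) →
        |p x - p (fun i => (n i : ℝ))| ≤ Cp * (1 + ‖x‖) ^ D * ‖x - fun i => (n i : ℝ)‖ := by
      intro x n hxn
      have mono : ∀ (E : ℕ), E ≤ D → (1 + ‖x‖) ^ E ≤ (1 + ‖x‖) ^ D := by
        intro E h
        apply pow_le_pow_right₀ _ h
        have := norm_nonneg x; linarith
      have e0 := (l0 x _ hxn).trans (mul_le_mul_of_nonneg_right (mul_le_mul_of_nonneg_left (mono D0 (by omega)) hC0.le) (norm_nonneg _))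
      have e1 := (l1 x _ hxn).trans (mul_le_mul_of_nonneg_right (mul_le_mul_of_nonneg_left (mono D1 (by omega)) hC1.le) (norm_nonneg _))
      have e2 := (l2 x _ hxn).trans (mul_le_mul_of_nonneg_right (mul_le_mul_of_nonneg_left (mono D2 (by omega)) hC2.le) (norm_nonneg _))
      set y : Fin k → ℝ := fun i => (n i : ℝ) with hy
      calc |p x - p y| = |(aeval x p0 - aeval y p0) + a * (aeval x p1 - aeval y p1)
            + (a : ℝ) ^ 2 * (aeval x p2 - aeval y p2)| := by simp only [hp]; congr 1; ring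
        _ ≤ |(aeval x p0 - aeval y p0) + a * (aeval x p1 - aeval y p1)|
            + |(a : ℝ) ^ 2 * (aeval x p2 - aeval y p2)| := abs_add_le _ _
        _ ≤ |aeval x p0 - aeval y p0| + |a * (aeval x p1 - aeval y p1)|
            + |(a : ℝ) ^ 2 * (aeval x p2 - aeval y p2)| := by
            gcongr; exact abs_add_le _ _
        _ = |aeval x p0 - aeval y p0| + a * |aeval x p1 - aeval y p1|
            + (a : ℝ) ^ 2 * |aeval x p2 - aeval y p2| := by
            rw [abs_mul, abs_mul, abs_of_nonneg (by positivity : (0 : ℝ) ≤ a), abs_of_nonneg (by positivity : (0 : ℝ) ≤ (a : ℝ) ^ 2)]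
        _ ≤ C0 * (1 + ‖x‖) ^ D * ‖x - y‖ + a * (C1 * (1 + ‖x‖) ^ D * ‖x - y‖)
            + (a : ℝ) ^ 2 * (C2 * (1 + ‖x‖) ^ D * ‖x - y‖) := by gcongr
        _ = _ := by rw [hCp]; ring
    set K := Real.exp (64 * Real.pi * (1 + Cp * 2 ^ D)) with hK
    have hKpos : 0 < K := Real.exp_pos _
    have hdecay := decay hFc (fun x => nn (fun j => x (e j))) (7 + 3 * (k : ℝ)) hBpos hsq hsq2 K hKpos
      (2 * N + 3) (fun T hT γ hγ m hm hmn =>
        key_stable p hp0 Cp hCpos D N hLip hint (by omega) H hHne hH0 hgc hT (htoSol T γ hγ) m hm hmn)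
    have hsolves : ∀ (x0 : Fin n → ℝ) (γ : ℝ → Fin n → ℝ), γ 0 = x0 → (∀ t, 0 ≤ t → HasDerivAt γ (F (γ t)) t) →
        Solves (field n (La T0 T1 T2 a)) x0 γ := fun x0 γ h0 h => ⟨h0, fun t ht => (h t ht).hasDerivWithinAt⟩
    refine ⟨fun ε hε => ?_, fun x0 => ?_⟩
    · have hKB : 0 < K * √(7 + 3 * (k : ℝ)) := mul_pos hKpos (Real.sqrt_pos.2 hBpos)
      refine ⟨ε / (K * √(7 + 3 * (k : ℝ))), by positivity, fun x0 hx0 => ?_⟩
      obtain ⟨γ, h0, h1, h2, -⟩ := hdecay x0
      refine ⟨γ, hsolves x0 γ h0 h1, fun t ht => lt_of_le_of_lt (h2 t ht) ?_⟩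
      rw [lt_div_iff₀ hKB] at hx0
      linarith
    · obtain ⟨γ, h0, h1, -, h3⟩ := hdecay x0
      exact ⟨γ, hsolves x0 γ h0 h1, h3⟩
  · -- P implies unstable
    intro hPa hst
    obtain ⟨mm, hmm'⟩ := (hPk a).1 hPa
    have hn0 : p (fun i => (mm i : ℝ)) = 0 := by rw [hcast, hmm']; simp
    obtain ⟨X0, ε, hX0, hε, hun⟩ := key_unstable p N (by omega) H hHne hH0 hgc mm hn0
    obtain ⟨δ, hδ, hst'⟩ := hst (√(ε / (7 + 3 * (k : ℝ)))) (Real.sqrt_pos.2 (by positivity))
    obtain ⟨T, hT, hT'⟩ := hun (δ / 2) (by positivity)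
    obtain ⟨γ, ⟨hγ0, hγ⟩, hsmall⟩ := hst' (fun i => δ / 2 * X0 (e.symm i)) (by
      rw [pi_norm_lt_iff hδ]
      intro i
      rw [Real.norm_eq_abs, abs_mul, abs_of_pos (by positivity : 0 < δ / 2)]
      have h1 : |X0 (e.symm i)| ≤ 1 := by
        have := sq_le_nn X0 (e.symm i)
        rw [hX0] at this
        rw [← sq_le_one_iff_abs_le_one]
        exact this
      nlinarith [abs_nonneg (X0 (e.symm i))])
    have hsol : SolOn F T γ := by
      intro t ht
      exact (hγ t ht.1).mono (fun s hs => hs.1)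
    obtain ⟨t, ht, htε⟩ := hT' (fun t j => γ t (e j)) (htoSol T γ hsol) (by
      funext j
      show γ 0 (e j) = δ / 2 * X0 j
      rw [hγ0]
      simp)
    have h1 := hsmall t ht.1
    have h2 := hsq2 (γ t)
    have h3 : ‖γ t‖ ^ 2 < ε / (7 + 3 * (k : ℝ)) := by
      have h4 : ‖γ t‖ ^ 2 < √(ε / (7 + 3 * (k : ℝ))) ^ 2 := pow_lt_pow_left₀ h1 (norm_nonneg _) two_ne_zero
      rwa [Real.sq_sqrt (by positivity)] at h4
    rw [lt_div_iff₀ hBpos] at h3
    linarith

end Pool.Agent.H761R3.Arn
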